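import Pool.Agent.K3h12.DM.Vdim2

/-!
# The dimension of the semistable classes of the tensor products, for all twists
-/

set_option autoImplicit false
set_option linter.unusedSectionVars false

namespace Pool.Agent.K3h12.DM

open Pool.Agent.R384 Pool.Agent.K3h12.SS
open Pool.Agent.Y715.Red Pool.Agent.Y715.Nr Pool.Agent.W237.RK
open Pool.Agent.Y715.Gi (QB KK GK i₀_mem gk_fix)
open Pool.Agent.Y715.Df (Cmp exists_cmp)
open Pool.Agent.Y715.Lc (norm_two_odd)

open scoped Classical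

variable {i₀ : QB} (hi : i₀ ^ 2 = i₀ - 2)

/-- the twisting characters -/
structure TC (I : QB) (χ : GK i₀ →* ℤ_[2]ˣ) : Prop where
  cont : Continuous χ
  pos : ∀ σ : GK i₀, σ I = I → (4 : ℤ_[2]) ∣ (χ σ : ℤ_[2]) - 1
  neg : ∀ σ : GK i₀, σ I = -I → (4 : ℤ_[2]) ∣ (χ σ : ℤ_[2]) + 1
  inert : ∀ (p : ℕ) [Fact p.Prime] (ι : QB →ₐ[ℚ] PadicAlgCl p), p ≠ 2 →
    ∀ σ ∈ (II ι : Set (GK i₀)), χ σ = 1

theorem tc_cyc {I : QB} (hI : I ^ 2 = -1) : TC I (cyc i₀) :=
  ⟨cyc_cont i₀, fun σ => (cyc_four hI σ).1, fun σ => (cyc_four hI σ).2,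
    fun _ _ _ hp _ hσ => cyc_inert hp hσ⟩

theorem tc_inv {I : QB} {χ : GK i₀ →* ℤ_[2]ˣ} (h : TC I χ) : TC I χ⁻¹ := by
  refine ⟨h.cont.inv, fun σ hσ => ?_, fun σ hσ => ?_, fun p _ ι hp σ hσ => ?_⟩
  · obtain ⟨t, ht⟩ := h.pos σ hσ
    refine ⟨-t * ((χ σ)⁻¹ : ℤ_[2]ˣ), ?_⟩
    have h1 : (χ σ : ℤ_[2]) * ((χ σ)⁻¹ : ℤ_[2]ˣ) = 1 := Units.mul_inv _
    show (((χ σ)⁻¹ : ℤ_[2]ˣ) : ℤ_[2]) - 1 = _
    linear_combination h1 - (((χ σ)⁻¹ : ℤ_[2]ˣ) : ℤ_[2]) * ht
  · obtain ⟨t, ht⟩ := h.neg σ hσ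
    refine ⟨t * ((χ σ)⁻¹ : ℤ_[2]ˣ), ?_⟩
    have h1 : (χ σ : ℤ_[2]) * ((χ σ)⁻¹ : ℤ_[2]ˣ) = 1 := Units.mul_inv _
    show (((χ σ)⁻¹ : ℤ_[2]ˣ) : ℤ_[2]) + 1 = _
    linear_combination (((χ σ)⁻¹ : ℤ_[2]ˣ) : ℤ_[2]) * ht - h1
  · show (χ σ)⁻¹ = 1
    rw [h.inert p ι hp σ hσ, inv_one]

section

variable {D : OO} {r I : QB} {ι₁ ι₂ : QB →ₐ[ℚ] PadicAlgCl 2} {n i : ℕ} {a b c d : Fin n → OO}
  {rk : Fin n → QB} {s : OO}
  {ρ : Fin n → GK i₀ →* Matrix (Fin 2) (Fin 2) ℤ_[2]} {χ : GK i₀ →* ℤ_[2]ˣ}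

/-- the action modulo four -/
theorem vd_of' (tc : TC I χ) (hr : r ^ 2 = em hi D) (hI : I ^ 2 = -1) (hD : D ≠ 0)
    (hrk : ∀ k, rk k ^ 2 = em hi (d k)) (hs : s ≠ 0) (hrs : r * em hi s = ∏ k, rk k)
    (hρ : ∀ k, Rho hi (a k) (b k) (c k) (rk k) I ι₁ ι₂ (ρ k)) :
    VD hi (tR ρ χ i) (rtb r I i) (mmb D i) := by
  have hI0 : I ≠ 0 := by
    rintro rfl
    norm_num at hI
  have hr0 : r ≠ 0 := by
    rintro rfl
    rw [zero_pow two_ne_zero] at hr
    exact em_ne hi hD hr.symm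
  have key : ∀ (σ : GK i₀) (x : Fin n → Fin 2), ∃ e : ℤ, σ (rtb r I i x) = e * rtb r I i x ∧
      (e = 1 ∨ e = -1) ∧ ∀ v, ‖tR ρ χ i σ v x - e * v x‖ ≤ ‖v‖ / 4 := by
    intro σ x
    obtain ⟨eI, -, hI1, -, hσI, -⟩ := signs hi hr hI σ
    obtain ⟨ep, hp1, hσr, hσr'⟩ := signs' hi hrk hs hrs σ
    have hI2 : eI * eI = 1 := by rcases hI1 with rfl | rfl <;> norm_num
    have hσIr : ∀ k, σ (I * rk k) = ((eI * ep k : ℤ) : QB) * (I * rk k) := by
      intro k
      rw [map_mul, hσI, hσr]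
      push_cast
      ring
    have d0 : ∀ k, (4 : ℤ_[2]) ∣ ρ k σ 0 0 - ((eI * ep k : ℤ) : ℤ_[2]) := by
      intro k
      have h1 : eI * ep k = 1 ∨ eI * ep k = -1 := by
        rcases hI1 with h | h <;> rcases hp1 k with h' | h' <;> rw [h, h'] <;> norm_num
      have h2 := hσIr k
      rcases h1 with h1 | h1
      · rw [h1] at h2 ⊢
        rw [Int.cast_one]
        exact (hρ k).p0 σ (by rw [h2]; simp)
      · rw [h1] at h2 ⊢
        rw [Int.cast_neg, Int.cast_one, sub_neg_eq_add]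
        exact (hρ k).m0 σ (by rw [h2]; simp)
    have d1 : ∀ k, (4 : ℤ_[2]) ∣ ρ k σ 1 1 - ep k := by
      intro k
      have h2 := hσr k
      rcases hp1 k with h1 | h1
      · rw [h1] at h2 ⊢
        rw [Int.cast_one]
        exact (hρ k).p1 σ (by rw [h2]; simp)
      · rw [h1] at h2 ⊢
        rw [Int.cast_neg, Int.cast_one, sub_neg_eq_add]
        exact (hρ k).m1 σ (by rw [h2]; simp)
    have dχ : (4 : ℤ_[2]) ∣ (χ σ : ℤ_[2]) - eI := by
      rcases hI1 with rfl | rfl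
      · rw [Int.cast_one]
        exact tc.pos σ (by rw [hσI]; simp)
      · rw [Int.cast_neg, Int.cast_one, sub_neg_eq_add]
        exact tc.neg σ (by rw [hσI]; simp)
    refine ⟨eI ^ (i + cn x 0) * ∏ k, ep k, ?_, ?_, ?_⟩
    · rw [sgn_pow hI1]
      unfold rtb
      split_ifs with h
      · rw [one_mul]
        exact hσr'
      · rw [map_mul, hσI, hσr']
        push_cast
        ring
    · rw [sgn_pow hI1]
      have h3 := prod_sgn hp1
      split_ifs
      · rw [one_mul]; exact h3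
      · rcases hI1 with h1 | h1 <;> rcases h3 with h2 | h2 <;> rw [h1, h2] <;> norm_num
    · intro v
      exact tR_near ρ χ i (fun k a b hab => (hρ k).off σ a b hab)
        (tm_diag ρ χ i hI2 d0 d1 dχ) v
  have rt0 : ∀ x : Fin n → Fin 2, rtb r I i x ≠ 0 := by
    intro x
    unfold rtb
    split_ifs
    · exact hr0
    · exact mul_ne_zero hI0 hr0
  refine ⟨tR_cont ρ χ i (fun k a b => (hρ k).cont a b) tc.cont, rtb_sq hi hr hI, ?_, ?_, ?_⟩
  · intro x
    unfold mmb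
    split_ifs
    · exact hD
    · exact neg_ne_zero.2 hD
  · intro σ x hx v
    obtain ⟨e, h1, h2, h3⟩ := key σ x
    rcases h2 with rfl | rfl
    · have := h3 v
      rwa [Int.cast_one, one_mul] at this
    · exfalso
      rw [hx, Int.cast_neg, Int.cast_one, neg_one_mul] at h1
      exact ne_neg' (rt0 x) h1
  · intro σ x hx v
    obtain ⟨e, h1, h2, h3⟩ := key σ x
    rcases h2 with rfl | rfl
    · exfalso
      rw [hx, Int.cast_one, one_mul] at h1
      exact ne_neg' (rt0 x) h1.symm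
    · have := h3 v
      rwa [Int.cast_neg, Int.cast_one, neg_one_mul, sub_neg_eq_add] at this

/-- **The dimension bound for tensor products.** -/
theorem pdim (hLT : S_LATT) (hC2 : S_CORE2) {N : ℕ} {q : Fin N → OO} (hq : ∀ j, Pr (q j))
    (hinj : Function.Injective q)
    (h8 : (8 : OO) ∣ ∏ j, q j - 5) (hind : Indec q) (hD : D = ∏ j, q j ∨ D = -∏ j, q j)
    (hr : r ^ 2 = em hi D) (hI : I ^ 2 = -1) (hι₁ : ‖ι₁ i₀‖ < 1) (hι₂ : ‖ι₂ (1 - i₀)‖ < 1)
    (hρ : ∀ k, Rho hi (a k) (b k) (c k) (rk k) I ι₁ ι₂ (ρ k))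
    (hrk : ∀ k, rk k ^ 2 = em hi (d k)) (hs : s ≠ 0) (hrs : r * em hi s = ∏ k, rk k)
    (h0 : ∀ k, a k * b k * c k ≠ 0)
    (hbad : ∀ k π, Prime π → ¬ π ∣ 2 → π ∣ a k * b k * c k → Sqm π (-1) ∧ ¬ Sqm π D)
    (tc : TC I χ) (z : ℤ) (F : Finset (Fin n → Fin 2))
    (hF : ∀ x, x ∈ F ↔ z < (cn x 0 : ℤ) ∧ z < (cn x 1 : ℤ))
    (f : Fin (F.card + 1) → GK i₀ → (Fin n → Fin 2) → ℚ_[2]) (hf : ∀ j, VCoc (tR ρ χ i) (f j))
    (hodd : ∀ j (p : ℕ) [Fact p.Prime] (ι : QB →ₐ[ℚ] PadicAlgCl p), p ≠ 2 →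
      VCob (tR ρ χ i) (II ι) (f j))
    (h1 : ∀ j, VCobS (tR ρ χ i) {x | (cn x 0 : ℤ) ≤ z} (II ι₁) (f j))
    (h2 : ∀ j, VCobS (tR ρ χ i) {x | (cn x 1 : ℤ) ≤ z} (II ι₂) (f j)) :
    ∃ l : Fin (F.card + 1) → ℚ_[2], l ≠ 0 ∧ ∃ y, ∀ σ, ∑ j, l j • f j σ = tR ρ χ i σ y - y := by
  have hpne : ∏ j, q j ≠ 0 := Finset.prod_ne_zero_iff.2 fun j _ => (hq j).prime.ne_zero
  have hD0 : D ≠ 0 := by
    rcases hD with h | h
    · rwa [h]
    · rw [h]; exact neg_ne_zero.2 hpne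
  have hD8 : (8 : OO) ∣ D - 5 ∨ (8 : OO) ∣ D + 5 := by
    rcases hD with h | h
    · left; rw [h]; exact h8
    · right
      rw [h]
      have : -∏ j, q j + 5 = -(∏ j, q j - 5) := by ring
      rw [this]
      exact (dvd_neg).2 h8
  have vd := vd_of' (i := i) hi tc hr hI hD0 hrk hs hrs hρ
  have hom : em hi om = i₀ := by
    rw [em_apply]
    simp [om]
  have mvall : ∀ ι : QB →ₐ[ℚ] PadicAlgCl 2, ∃ σ ∈ (DD ι : Set (GK i₀)),
      ∀ x : Fin n → Fin 2, σ (rtb r I i x) = -rtb r I i x := by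
    intro ι
    obtain ⟨σ, hσ, h3, h4⟩ := exists_mv hi hD8 hr hI ι
    refine ⟨σ, hσ, fun x => ?_⟩
    unfold rtb
    split_ifs
    · exact h3
    · rw [map_mul, h3, h4, mul_neg]
  -- the places and the sets of coordinates
  set κ : (Fin n → Fin 2) → (QB →ₐ[ℚ] PadicAlgCl 2) := fun x =>
    if (cn x 0 : ℤ) ≤ z then ι₁ else ι₂ with hκ
  set S : (Fin n → Fin 2) → Set (Fin n → Fin 2) := fun x =>
    if (cn x 0 : ℤ) ≤ z then {x' | (cn x' 0 : ℤ) ≤ z} else {x' | (cn x' 1 : ℤ) ≤ z} with hS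
  have hst : ∀ x, x ∉ F → ∀ σ ∈ (DD (κ x) : Set (GK i₀)), ∀ v : (Fin n → Fin 2) → ℚ_[2],
      (∀ x' ∈ S x, v x' = 0) → ∀ x' ∈ S x, tR ρ χ i σ v x' = 0 := by
    intro x hx σ hσ v hv x' hx'
    have h01 : ∀ s : Fin 2, s ≠ 0 → s = 1 := by decide
    have h10 : ∀ s : Fin 2, s ≠ 1 → s = 0 := by decide
    by_cases h3 : (cn x 0 : ℤ) ≤ z
    · have e1 : κ x = ι₁ := if_pos h3
      have e2 : S x = {x' | (cn x' 0 : ℤ) ≤ z} := if_pos h3
      rw [e1] at hσ
      rw [e2] at hv hx'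
      obtain ⟨m, rfl⟩ := Int.eq_ofNat_of_zero_le (le_trans (Int.natCast_nonneg _) h3)
      have hx'' : cn x' 0 ≤ m := by exact_mod_cast hx'
      refine tR_stable ρ χ i (t := 0) (m := m) (fun k s hs => ?_) (fun b hb => hv b (by
        show (cn b 0 : ℤ) ≤ m
        exact_mod_cast hb)) x' hx''
      rw [h01 s hs]
      exact (hρ k).d1 σ hσ
    · have e1 : κ x = ι₂ := if_neg h3
      have e2 : S x = {x' | (cn x' 1 : ℤ) ≤ z} := if_neg h3
      rw [e1] at hσ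
      rw [e2] at hv hx'
      have h4 : (cn x' 1 : ℤ) ≤ z := hx'
      obtain ⟨m, rfl⟩ := Int.eq_ofNat_of_zero_le (le_trans (Int.natCast_nonneg _) h4)
      have hx'' : cn x' 1 ≤ m := by exact_mod_cast hx'
      refine tR_stable ρ χ i (t := 1) (m := m) (fun k s hs => ?_) (fun b hb => hv b (by
        show (cn b 1 : ℤ) ≤ m
        exact_mod_cast hb)) x' hx''
      rw [h10 s hs]
      exact (hρ k).d2 σ hσ
  have hSx : ∀ x, x ∉ F → x ∈ S x := by
    intro x hx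
    by_cases h3 : (cn x 0 : ℤ) ≤ z
    · have e2 : S x = {x' | (cn x' 0 : ℤ) ≤ z} := if_pos h3
      rw [e2]
      exact h3
    · have e2 : S x = {x' | (cn x' 1 : ℤ) ≤ z} := if_neg h3
      rw [e2]
      show (cn x 1 : ℤ) ≤ z
      by_contra h4
      exact hx ((hF x).2 ⟨not_le.1 h3, not_le.1 h4⟩)
  have hstr0 : ∀ j x, VCobS (tR ρ χ i) (S x) (II (κ x)) (f j) := by
    intro j x
    by_cases h3 : (cn x 0 : ℤ) ≤ z
    · have e1 : κ x = ι₁ := if_pos h3
      have e2 : S x = {x' | (cn x' 0 : ℤ) ≤ z} := if_pos h3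
      rw [e1, e2]
      exact h1 j
    · have e1 : κ x = ι₂ := if_neg h3
      have e2 : S x = {x' | (cn x' 1 : ℤ) ≤ z} := if_neg h3
      rw [e1, e2]
      exact h2 j
  have hstr : ∀ j x, x ∉ F → VCobS (tR ρ χ i) (S x) (DD (κ x)) (f j) := by
    intro j x hx
    obtain ⟨G, hGD, hGr⟩ := mvall (κ x)
    refine vdec_S (hf j) (hstr0 j x) hGD (fun σ hσ => II_sub hσ) ?_
      (fun σ hσ => conj_mem hσ hGD) (fun τ hτ => comm_mem hτ hGD)
      (fun σ hσ v hv b hb => hst x hx σ hσ v hv b hb)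
    intro v hv0 hv1
    have h3 : ‖v‖ ≤ ‖v‖ / 2 := by
      rw [pi_norm_le_iff_of_nonneg (by have := norm_nonneg v; linarith)]
      intro b
      by_cases hb : b ∈ S x
      · have h4 := vd.neg G b (hGr b) v
        rw [hv1 b hb, ← two_mul, norm_mul, norm_two'] at h4
        linarith
      · rw [hv0 b hb, norm_zero]
        have := norm_nonneg v
        linarith
    have h4 := norm_nonneg v
    exact norm_eq_zero.1 (by linarith)
  obtain ⟨τ₀, -, hτ₀⟩ := mvall ι₁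
  refine vdim hi hLT hC2 hq hinj h8 hind (rt := rtb r I i) (mm := mmb D i) ?_ vd ?_ hι₁ hι₂ hτ₀ F
    (fun x => if (cn x 0 : ℤ) ≤ z then om else 1 - om)
    (fun x => if (cn x 0 : ℤ) ≤ z then 1 - om else om) ?_ κ ?_ (fun x => mvall _) S hSx hst f hf
    hodd hstr
  · intro x
    unfold mmb
    split_ifs
    · exact hD
    · rcases hD with h | h
      · right; rw [h]
      · left; rw [h, neg_neg]
  · -- the odd places
    intro p _ ι hp
    have fI : ∀ σ ∈ (II ι : Set (GK i₀)), σ I = I := by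
      rintro σ ⟨τ, hτ, hin⟩
      have h3 : (ι I) ^ 2 = em (iw hi ι) (-1) := by
        rw [← map_pow, hI, map_neg, map_neg, map_one, map_one]
      have h4 : τ (ι I) = ι I := by
        refine fix_of_unit (iw hi ι) hp h3 ?_ hin hτ.fix
        rw [map_neg, map_one, norm_neg, norm_one]
        exact lt_irrefl _
      apply ι.injective
      show ι (σ I) = ι I
      rw [← hτ, h4]
    by_cases hg : ∀ k, ‖em (iw hi ι) (a k * b k * c k)‖ = 1
    · left
      have hfac : ∀ k, ‖ι (em hi (a k))‖ = 1 ∧ ‖ι (em hi (b k))‖ = 1 ∧ ‖ι (em hi (c k))‖ = 1 := by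
        intro k
        have h3 := hg k
        rw [map_mul, map_mul, norm_mul, norm_mul] at h3
        rw [ι_em, ι_em, ι_em]
        have n1 := em_le (iw hi ι) (a k)
        have n2 := em_le (iw hi ι) (b k)
        have n3 := em_le (iw hi ι) (c k)
        have m1 := norm_nonneg (em (iw hi ι) (a k))
        have m2 := norm_nonneg (em (iw hi ι) (b k))
        have m3 := norm_nonneg (em (iw hi ι) (c k))
        have m12 : ‖em (iw hi ι) (a k)‖ * ‖em (iw hi ι) (b k)‖ ≤ 1 := mul_le_one₀ n1 m2 n2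
        have e3 : ‖em (iw hi ι) (c k)‖ = 1 := by nlinarith
        rw [e3, mul_one] at h3
        have e2 : ‖em (iw hi ι) (b k)‖ = 1 := by nlinarith
        rw [e2, mul_one] at h3
        exact ⟨h3, e2, e3⟩
      intro σ hσ
      have hχ := tc.inert p ι hp σ hσ
      have hσI := fI σ hσ
      obtain ⟨ep, hp1, hσr, hσr'⟩ := signs' hi hrk hs hrs σ
      have hsc : ∀ k, ρ k σ = (ep k : ℤ_[2]) • 1 := by
        intro k
        have h2 := hσr k
        have h4 := (hρ k).odd p ι hp (hfac k).1 (hfac k).2.1 (hfac k).2.2 σ hσ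
        rcases hp1 k with h1 | h1
        · rw [h1] at h2 ⊢
          rw [h4.1 (by rw [h2]; simp)]
          simp
        · rw [h1] at h2 ⊢
          rw [h4.2 (by rw [h2]; simp)]
          simp
      have hR := tR_scalar ρ χ i hsc hχ
      have hprod : (∏ k, (ep k : ℤ_[2])) = ((∏ k, ep k : ℤ) : ℤ_[2]) := by push_cast; rfl
      rw [hprod] at hR
      rcases prod_sgn hp1 with h3 | h3
      · left
        rw [h3] at hR hσr'
        have hσr1 : σ r = r := by rw [hσr']; simp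
        constructor
        · intro v
          rw [hR]
          simp
        · intro x
          unfold rtb
          split_ifs
          · exact hσr1
          · rw [map_mul, hσI, hσr1]
      · right
        rw [h3] at hR hσr'
        have hσr1 : σ r = -r := by rw [hσr']; simp
        constructor
        · intro v
          rw [hR]
          simp
        · intro x
          unfold rtb
          split_ifs
          · exact hσr1
          · rw [map_mul, hσI, hσr1, mul_neg]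
    · right
      push Not at hg
      obtain ⟨k, hk⟩ := hg
      have hlt : ‖em (iw hi ι) (a k * b k * c k)‖ < 1 := lt_of_le_of_ne (em_le _ _) hk
      obtain ⟨π, hπ, hd, hπl⟩ := exists_below (iw hi ι) (h0 k) hlt
      have hπ2 : ¬ π ∣ 2 := fun h => hp ((two_of_dvd hπ (iw hi ι) hπl).2 h)
      obtain ⟨hs1, hs2⟩ := hbad k π hπ hπ2 hd
      have hDu : ¬ ‖em (iw hi ι) D‖ < 1 := by
        rw [← dvd_iff (iw hi ι) hπ hπl]
        intro h3
        exact hs2 ⟨0, by simpa using h3⟩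
      have hmu : ∀ x : Fin n → Fin 2, ¬ ‖em (iw hi ι) (mmb D i x)‖ < 1 := by
        intro x
        unfold mmb
        split_ifs
        · exact hDu
        · rw [map_neg, norm_neg]; exact hDu
      refine ⟨?_, ?_, hmu⟩
      · obtain ⟨G, hG, hGr⟩ := exists_frob hi hp hr hπl hπ hs1 hs2
        have hGI := fix_sqrt hi hp hI hπl hπ hs1 G hG
        refine ⟨G, hG, fun x => ?_⟩
        unfold rtb
        split_ifs
        · exact hGr
        · rw [map_mul, hGI, hGr, mul_neg]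
      · rintro σ ⟨τ, hτ, hin⟩ x
        have h3 : (ι (rtb r I i x)) ^ 2 = em (iw hi ι) (mmb D i x) := by
          rw [← map_pow, rtb_sq hi hr hI, ι_em]
        have h4 : τ (ι (rtb r I i x)) = ι (rtb r I i x) :=
          fix_of_unit (iw hi ι) hp h3 (hmu x) hin hτ.fix
        apply ι.injective
        show ι (σ (rtb r I i x)) = ι (rtb r I i x)
        rw [← hτ, h4]
  · intro x
    by_cases h : (cn x 0 : ℤ) ≤ z
    · left; simp [h]
    · right; simp [h]
  · intro x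
    by_cases h : (cn x 0 : ℤ) ≤ z
    · rw [if_pos h, show κ x = ι₁ from if_pos h, hom]
      exact hι₁
    · rw [if_neg h, show κ x = ι₂ from if_neg h, map_sub, map_one, hom]
      exact hι₂

end

end Pool.Agent.K3h12.DM
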