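import Mathlib
import Pool.Agent.Results.MP_76188c_nt.ProductsAllTwists
import Pool.Agent.K3h12.DM.Pdim
import Pool.Agent.K3h57.DM.Loc2
import Pool.Agent.K3h58.DM.Core2
import Pool.Agent.K3h59.DM.Normg
import Pool.Agent.K3h87.DM.LATT

/-!
# Semistable classes of the products of elliptic curves over `ℚ(√-7)`: the number of Beilinson

This is the case `L = K` of `MP_76188c_nt.TowersAllWeights` (helper45), kept here as a helper file.

The curves, the frames, the good numbers `D`, the fine triples and the condition `NonSquare` are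
those of `ProductsAllTwists`: `K = ℚ(√-7)`,

`E_{t,d} : y² = x (x + d a²) (x + d b²)`, `t = (a, b, c)`, `a² = b² + c²`, `a` and `d` prime to `2`,
`ω² ∣ b`, `(1 - ω)² ∣ c`,

`D = ± q_1 ... q_N` with distinct primes `q_j = 1` modulo `4`, `q_1 ... q_N = 5` modulo `8`, and the
graph with the edges `{j, k}` for the pairs such that `q_j` is not a square modulo `q_k` has an odd
number of spanning trees.

Let `E_1, ..., E_n` be curves of the family with `d_1 ... d_n = D` modulo squares, such that `-1` is a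
square and `D` is not a square modulo the prime divisors of the `a_k b_k c_k` prime to `2`. Let
`V = V_2(E_1) ⊗ ... ⊗ V_2(E_n) (-i)`. In `ProductsAllTwists` it is proved that the semistable classes
of `H¹(K, V)` are zero if `n ≤ 2 i + 1`. Here we consider all the other integers `i`, also the
negative ones.

Theorem: for all integers `i` with `2 i + 2 ≤ n` the semistable classes of `H¹(K, V)` generate a
subspace of dimension at most `f = ∑_{i < k < n - i} binomial(n, k)`, the number of the
`α : {1, ..., n} → {0, 1}` which take the value `0` more than `i` times and the value `1` more than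
`i` times. That is, for all semistable classes `c_0, ..., c_f` there are `l_0, ..., l_f` in `ℚ_2`,
not all zero, with `∑ l_j c_j = 0`.

This number is `∑_{v ∣ 2} dim D_dR(V_v) / Fil⁰ - dim V`, the Euler characteristic of the Selmer
complex of `V` (`K` has one complex place). If `n` is odd, it is the dimension which Beilinson
predicts. So for `X = E_1 × ... × E_N`, all the curves with the same `d = D`, for all odd `m` and all
`j > (m + 1) / 2` the dimension of `H¹_st(K, H^m(X, ℚ_2(j)))` is at most the dimension of the Deligne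
cohomology group `H^{m+1}_D(X, ℝ(j))`, which Beilinson predicts for the motivic cohomology group
`H^{m+1}_M(X, ℚ(j)) = K_{2 j - m - 1}(X)^{(j)}` of an integral model; for `j ≤ (m + 1) / 2` it is zero
by `ProductsAllTwists`. For this see the remarks on the condition `IsSemistable` there: `V` is
ordinary at the places above `2`, and for odd `n` all the classes are trivial on the inertia groups of
the places `v` prime to `2` by the theory of weights if `v` is good, and since the Frobenius acts by
`-1` modulo `4` if `v` is bad. Only the upper bound is proved in Lean, where it is proved directly; the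
representations `V` with `2 i + 1 ≤ n` and those with `n ≤ 2 i + 1` are exchanged by the duality of
Poitou and Tate (which also shows that the dimension is `f`, given the theorem of
`ProductsAllTwists`), and this is not used.

The proof. Modulo `2` the representation `V` is trivial, modulo `4` it is a sum of the quadratic
characters of `√D` and `√-D`. Assume that the space of the classes has the dimension `f + 1`. There is
a lattice `Λ` of coefficients `l ∈ ℚ_2^{f + 1}` such that `∑ l_j c_j` can be changed by a coboundary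
to an integral cocycle, and the coordinates of this cocycle modulo `2` are homomorphisms with values
in `ℤ/2` (which can be lifted to cocycles modulo `4`). The coordinates `α` outside of the set of the
`f` coordinates are trivial by the method of `ProductsAllTwists`, and for each of the `f` coordinates
there is at most one nontrivial homomorphism. By counting (`Λ / 2 Λ` has `2^{f+1}` elements) there is
an element of `Λ` outside of `2 Λ` which is trivial modulo `2` in all the coordinates, a
contradiction.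

Parts of the proof were written by helper57 (the forms over `ℚ_2`), helper58 (at most one
homomorphism), helper59 (cocycles modulo `4`) and helper87 (counting in a lattice).
-/

set_option autoImplicit false

namespace Pool.Agent.K3h12.DM.AllWeights

open Pool.Agent.Results.MP_76188c_nt.ProductsAllTwists

/-- The action of the group `G` on `V_1 ⊗ ... ⊗ V_n ⊗ χ⁻ⁱ`, `i` an integer, where `ρ k` is the action
on the basis `e 0`, `e 1` of `V_k`. The coordinate `α` is the coefficient of
`e (α 1) ⊗ ... ⊗ e (α n)`. -/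
noncomputable def tensZ {G : Type} [Group G] {n : ℕ} (ρ : Fin n → G →* Matrix (Fin 2) (Fin 2) ℤ_[2])
    (χ : G →* ℤ_[2]ˣ) (i : ℤ) (σ : G) (v : (Fin n → Fin 2) → ℚ_[2]) : (Fin n → Fin 2) → ℚ_[2] :=
  fun α => ∑ β, ((((χ σ) ^ (-i) : ℤ_[2]ˣ) * ∏ k, ρ k σ (α k) (β k) : ℤ_[2]) : ℚ_[2]) * v β

/-- The conditions for the class of `c` in `H¹(K, V)`, `V = V_1 ⊗ ... ⊗ V_n (-i)`: it is trivial on
the inertia groups of the places prime to `2`; at the place `ι₁` its image in `H¹(K_v, V / F)` is
trivial on the inertia group, where `F` is generated by the tensors `e (α 1) ⊗ ... ⊗ e (α n)` with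
more than `i` factors `e 0`, that is with a positive Hodge–Tate weight; and at the place `ι₂` the
same with `e 1` instead of `e 0`. -/
structure IsSemistableZ {w : QBar} (ι₁ ι₂ : QBar →ₐ[ℚ] PadicAlgCl 2) {n : ℕ} (i : ℤ)
    (A : Gal w → ((Fin n → Fin 2) → ℚ_[2]) → (Fin n → Fin 2) → ℚ_[2])
    (c : Gal w → (Fin n → Fin 2) → ℚ_[2]) : Prop where
  odd : ∀ (p : ℕ) [Fact p.Prime] (ι : QBar →ₐ[ℚ] PadicAlgCl p), p ≠ 2 →
    TrivialOn A (Inr ι) Set.univ c
  two₁ : TrivialOn A (Inr ι₁) {α | (count α 0 : ℤ) ≤ i} c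
  two₂ : TrivialOn A (Inr ι₂) {α | (count α 1 : ℤ) ≤ i} c

/-- The classes of the cocycles `c` with values in `ℚ_2 ^ B`, where `σ` acts by `A σ`, which satisfy
`P c` generate a subspace of dimension at most `f` of the first cohomology group: every `f + 1`
classes satisfy a nontrivial linear relation. -/
def DimLE {G B : Type} [Group G] [TopologicalSpace G] (A : G → (B → ℚ_[2]) → B → ℚ_[2])
    (P : (G → B → ℚ_[2]) → Prop) (f : ℕ) : Prop :=
  ∀ c : Fin (f + 1) → G → B → ℚ_[2], (∀ j, IsCocycle A (c j) ∧ P (c j)) →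
    ∃ l : Fin (f + 1) → ℚ_[2], l ≠ 0 ∧ TrivialOn A Set.univ Set.univ (∑ j, l j • c j)

/-- **The dimension of the space of the semistable classes of the products of elliptic curves.** -/
theorem result : ∀ (N : ℕ) (q : Fin N → OK) (D s : OK), Good q D → ∀ (n : ℕ) (t : Fin n → Triple)
    (d : Fin n → OK), (∀ k, (t k).Adm ∧ IsCoprime (d k) 2) → ∏ k, d k = D * s ^ 2 →
    (∀ k, Fine (t k) ∧ NonSquare (t k) D) → ∀ w : QBar, w ^ 2 = w - 2 →
    (∀ k, (E w (t k) (d k)).IsElliptic) ∧ ∀ ι₁ ι₂ : QBar →ₐ[ℚ] PadicAlgCl 2, ‖ι₁ w‖ < 1 →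
      ‖ι₂ (1 - w)‖ < 1 → ∃ (e : ∀ k, Fin 2 → ℕ → Pts w (t k) (d k))
        (ρ : Fin n → Gal w →* Matrix (Fin 2) (Fin 2) ℤ_[2]),
        (∀ k, Frame ι₁ ι₂ (t k) (d k) (e k) (ρ k)) ∧
        ∀ i : ℤ, 2 * i + 2 ≤ n → DimLE (tensZ ρ (cyc w) i)
          (IsSemistableZ ι₁ ι₂ i (tensZ ρ (cyc w) i))
          (Finset.univ.filter fun α : Fin n → Fin 2 =>
            i < (count α 0 : ℤ) ∧ i < (count α 1 : ℤ)).card := by
  intro N q D s hg n t d ht hprod hbad w hw
  refine ⟨fun k => elliptic (ht k).1 (ht k).2 hw, ?_⟩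
  intro ι₁ ι₂ h₁ h₂
  have hpr : ∀ j, Pool.Agent.R384.Pr (q j) := fun j => ⟨hg.prime j, hg.one j⟩
  have hs : s ≠ 0 := by
    rintro rfl
    rw [zero_pow two_ne_zero, mul_zero] at hprod
    obtain ⟨k, _, hk⟩ := Finset.prod_eq_zero_iff.1 hprod
    exact d_ne (ht k).2 hk
  have hrk : ∀ k, ∃ r : QBar, r ^ 2 = Pool.Agent.R384.em hw (d k) := fun k =>
    IsAlgClosed.exists_pow_nat_eq _ (by norm_num)
  choose rk hrk using hrk
  obtain ⟨I, hI⟩ : ∃ I : QBar, I ^ 2 = -1 := IsAlgClosed.exists_pow_nat_eq _ (by norm_num)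
  have hs' := Pool.Agent.R384.em_ne hw hs
  have hrs : (∏ k, rk k) / Pool.Agent.R384.em hw s * Pool.Agent.R384.em hw s = ∏ k, rk k :=
    div_mul_cancel₀ _ hs'
  have hr : ((∏ k, rk k) / Pool.Agent.R384.em hw s) ^ 2 = Pool.Agent.R384.em hw D := by
    rw [div_pow, ← Finset.prod_pow, div_eq_iff (pow_ne_zero _ hs')]
    simp only [hrk]
    rw [← map_prod, hprod, map_mul, map_pow]
  have hfr := fun k => exists_frame hw (ht k).1 (ht k).2 (hrk k) hI h₁ h₂
  choose e ρ hfr hρ using hfr
  refine ⟨e, ρ, hfr, ?_⟩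
  intro i _ c hc
  -- the sign of the twist
  obtain ⟨χ, k, tc, hχ⟩ : ∃ (χ : Gal w →* ℤ_[2]ˣ) (k : ℕ), Pool.Agent.K3h12.DM.TC I χ ∧
      ∀ σ, (cyc w σ) ^ (-i) = (χ σ)⁻¹ ^ k := by
    have htc : Pool.Agent.K3h12.DM.TC I (cyc w) := Pool.Agent.K3h12.DM.tc_cyc hI
    rcases Int.eq_nat_or_neg i with ⟨k, rfl | rfl⟩
    · exact ⟨cyc w, k, htc, fun σ => by rw [zpow_neg, zpow_natCast, inv_pow]⟩
    · refine ⟨(cyc w)⁻¹, k, Pool.Agent.K3h12.DM.tc_inv htc, fun σ => ?_⟩
      rw [neg_neg, zpow_natCast, MonoidHom.inv_apply, inv_inv]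
  have hA : ∀ (σ : Gal w) (v : (Fin n → Fin 2) → ℚ_[2]),
      tensZ ρ (cyc w) i σ v = Pool.Agent.R384.tR ρ χ k σ v := by
    intro σ v
    funext α
    rw [Pool.Agent.R384.tR_apply]
    unfold tensZ
    rw [hχ σ]
    rfl
  have hf : ∀ j, Pool.Agent.R384.VCoc (Pool.Agent.R384.tR ρ χ k) (c j) := fun j =>
    ⟨(hc j).1.cont, fun σ τ => by rw [(hc j).1.mul, hA]⟩
  obtain ⟨l, hl, y, hy⟩ := Pool.Agent.K3h12.DM.pdim (D := D)
    (r := (∏ k, rk k) / Pool.Agent.R384.em hw s) (I := I) hw Pool.Agent.K3h87.DM.t_LATT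
    (Pool.Agent.K3h58.DM.t_CORE2 Pool.Agent.K3h59.DM.t_NORMG Pool.Agent.K3h57.DM.t_LOC2) hpr hg.inj
    hg.five hg.indec hg.prod hr hI h₁ h₂ hρ hrk hs hrs (fun k => (ht k).1.ne)
    (fun k π hπ h2 hd => ⟨(hbad k).1 π ⟨hπ, h2, hd⟩, (hbad k).2 π ⟨hπ, h2, hd⟩⟩) tc i
    (Finset.univ.filter fun α : Fin n → Fin 2 => i < (count α 0 : ℤ) ∧ i < (count α 1 : ℤ))
    (fun x => by
      rw [Finset.mem_filter]
      exact and_iff_right (Finset.mem_univ x)) c hf
    (fun j p _ ι hp => by
      obtain ⟨y, hy⟩ := (hc j).2.odd p ι hp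
      refine ⟨y, fun σ hσ => ?_⟩
      funext α
      rw [hy σ hσ α (Set.mem_univ _), hA]
      rfl)
    (fun j => by
      obtain ⟨y, hy⟩ := (hc j).2.two₁
      refine ⟨y, fun σ hσ α hα => ?_⟩
      rw [hy σ hσ α hα, hA]
      rfl)
    (fun j => by
      obtain ⟨y, hy⟩ := (hc j).2.two₂
      refine ⟨y, fun σ hσ α hα => ?_⟩
      rw [hy σ hσ α hα, hA]
      rfl)
  refine ⟨l, hl, y, fun σ _ α _ => ?_⟩
  rw [hA]
  have h1 := congrFun (hy σ) α
  rw [Finset.sum_apply] at h1 ⊢
  rw [Finset.sum_apply]
  exact h1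

end Pool.Agent.K3h12.DM.AllWeights
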