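import Pool.Agent.K3h12.SS.Vdec

/-!
# Semistable classes in all weights: statements of the parts
-/

set_option autoImplicit false

namespace Pool.Agent.K3h12.DM

open Pool.Agent.R384
open Pool.Agent.Y715.Red Pool.Agent.Y715.Nr Pool.Agent.W237.RK
open Pool.Agent.Y715.Gi (QB KK GK i₀_mem gk_fix)

/-- **LATT**: counting in a lattice of rank `f + 1`. -/
def S_LATT : Prop := ∀ (f : ℕ) (Λ : AddSubgroup (Fin (f + 1) → ℚ_[2])),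
  (∀ (a : ℤ_[2]), ∀ v ∈ Λ, (a : ℚ_[2]) • v ∈ Λ) →
  (∀ v : Fin (f + 1) → ℚ_[2], ∃ k : ℕ, (2 : ℚ_[2]) ^ k • v ∈ Λ) →
  (∃ C : ℝ, ∀ v ∈ Λ, ‖v‖ ≤ C) →
  ∀ M : Fin f → Set (Fin (f + 1) → ℚ_[2]),
    (∀ x, ∀ v ∈ Λ, ∀ w ∈ Λ, v ∈ M x ∨ w ∈ M x ∨ v + w ∈ M x) →
    (∀ x, ∀ v ∈ Λ, ∀ w ∈ Λ, v ∈ M x → w ∈ M x → v + w ∈ M x) →
    (∀ x, ∀ v ∈ Λ, v ∈ M x → -v ∈ M x) →
    (∀ v ∈ Λ, (∀ x, v ∈ M x) → (1 / 2 : ℚ_[2]) • v ∈ Λ) → False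

/-- **NORMG**: a cocycle modulo four with values in the twist by the quadratic character of `m` gives
a solution of a quadratic equation. -/
def S_NORMG : Prop := ∀ (k Ω : Type) [Field k] [Field Ω] [Algebra k Ω] [IsGalois k Ω] [CharZero k]
  (m δ : k) (r s : Ω), m ≠ 0 → δ ≠ 0 → r ^ 2 = algebraMap k Ω m → s ^ 2 = algebraMap k Ω δ →
  ∀ c : (Ω ≃ₐ[k] Ω) → ZMod 4, IsLocallyConstant c →
  (∀ σ τ, σ r = r → c (σ * τ) = c σ + c τ) →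
  (∀ σ τ, σ r = -r → c (σ * τ) = c σ - c τ) →
  (∀ σ, (2 * c σ = 0 ↔ σ s = s)) →
  ∃ x y z : k, (x ≠ 0 ∨ y ≠ 0 ∨ z ≠ 0) ∧ x ^ 2 = δ * (y ^ 2 + m * z ^ 2)

/-- **LOC2**: two anisotropic forms over `ℚ_2`. -/
def S_LOC2 : Prop :=
  (∀ m x y z : ℚ_[2], ‖m - 5‖ ≤ 1 / 8 → x ^ 2 + y ^ 2 + m * z ^ 2 = 0 →
    x = 0 ∧ y = 0 ∧ z = 0) ∧
  ∀ m δ x y z : ℚ_[2], ‖m - 3‖ ≤ 1 / 8 → ‖δ‖ = 1 / 2 → x ^ 2 = δ * (y ^ 2 + m * z ^ 2) →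
    x = 0 ∧ y = 0 ∧ z = 0

/-- The local conditions for a class without conditions at the places above two, which can be
lifted modulo four. -/
structure LF {i₀ : QB} (hi : i₀ ^ 2 = i₀ - 2) (m : OO) (r : QB) (φ : GK i₀ → ZMod 2) : Prop where
  cont : IsLocallyConstant φ
  add : ∀ σ τ, φ (σ * τ) = φ σ + φ τ
  unr : ∀ (p : ℕ) [Fact p.Prime] (ι : QB →ₐ[ℚ] PadicAlgCl p), p ≠ 2 → ¬ ‖em (iw hi ι) m‖ < 1 →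
    ∀ σ ∈ (II ι : Set (GK i₀)), φ σ = 0
  ram : ∀ (p : ℕ) [Fact p.Prime] (ι : QB →ₐ[ℚ] PadicAlgCl p), p ≠ 2 → ‖em (iw hi ι) m‖ < 1 →
    Dich φ r (DD ι)
  lift : ∃ c : GK i₀ → ZMod 4, IsLocallyConstant c ∧
    (∀ σ τ, σ r = r → c (σ * τ) = c σ + c τ) ∧ (∀ σ τ, σ r = -r → c (σ * τ) = c σ - c τ) ∧
    ∀ σ, (2 * c σ = 0 ↔ φ σ = 0)

/-- `φ` is zero or the character of `r`. -/
def Triv {i₀ : QB} (r : QB) (φ : GK i₀ → ZMod 2) : Prop :=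
  (∀ σ, φ σ = 0) ∨ ∀ σ, (φ σ = 0 ↔ σ r = r)

/-- **CORE2**: there is at most one nontrivial class without conditions at two. -/
def S_CORE2 : Prop := ∀ (i₀ : QB) (hi : i₀ ^ 2 = i₀ - 2) (n : ℕ) (q : Fin n → OO),
  (∀ i, Pr (q i)) → Function.Injective q → (8 : OO) ∣ ∏ i, q i - 5 → Indec q →
  ∀ m : OO, (m = ∏ i, q i ∨ m = -∏ i, q i) → ∀ r : QB, r ^ 2 = em hi m →
  ∀ ι₁ ι₂ : QB →ₐ[ℚ] PadicAlgCl 2, ‖ι₁ i₀‖ < 1 → ‖ι₂ (1 - i₀)‖ < 1 →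
  ∀ φ₁ φ₂ : GK i₀ → ZMod 2, LF hi m r φ₁ → LF hi m r φ₂ →
    Triv r φ₁ ∨ Triv r φ₂ ∨ Triv r (fun σ => φ₁ σ + φ₂ σ)

end Pool.Agent.K3h12.DM
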