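import Pool.Agent.K3h45.ST.Van2
import Pool.Agent.K3h12.DM.Pdim

/-!
# The dimension of the semistable classes over multiquadratic extensions
-/

set_option autoImplicit false
set_option linter.unusedSectionVars false

namespace Pool.Agent.K3h12.DM

open Pool.Agent.R384 Pool.Agent.K3h12.SS Pool.Agent.K3h45.ST
open Pool.Agent.Y715.Red Pool.Agent.Y715.Nr Pool.Agent.W237.RK
open Pool.Agent.Y715.Gi (QB KK GK i₀_mem gk_fix)
open Pool.Agent.Y715.Df (Cmp exists_cmp)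

open scoped Classical

section lin

/-- the codimension of a subspace -/
lemma codim_le {M f : ℕ} (W : Submodule ℚ_[2] (Fin M → ℚ_[2]))
    (h : ∀ v : Fin (f + 1) → (Fin M → ℚ_[2]), ∃ a : Fin (f + 1) → ℚ_[2], a ≠ 0 ∧
      ∑ k, a k • v k ∈ W) :
    Module.finrank ℚ_[2] ((Fin M → ℚ_[2]) ⧸ W) ≤ f := by
  by_contra hlt
  push Not at hlt
  obtain ⟨v, hv⟩ := exists_linearIndependent_of_le_finrank (R := ℚ_[2])
    (M := (Fin M → ℚ_[2]) ⧸ W) (n := f + 1) hlt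
  choose u hu using fun k => W.mkQ_surjective (v k)
  obtain ⟨a, ha, hm⟩ := h u
  apply ha
  have h1 : ∑ k, a k • v k = 0 := by
    have h2 : W.mkQ (∑ k, a k • u k) = 0 := by
      rw [Submodule.mkQ_apply, Submodule.Quotient.mk_eq_zero]
      exact hm
    rw [map_sum] at h2
    rw [← h2]
    refine Finset.sum_congr rfl fun k _ => ?_
    rw [map_smul, hu k]
  funext k
  exact (Fintype.linearIndependent_iff.1 hv) a h1 k

/-- a common vector of subspaces -/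
lemma exists_common {J : Type} [Fintype J] {M f : ℕ} (hM : Fintype.card J * f < M)
    (W : J → Submodule ℚ_[2] (Fin M → ℚ_[2]))
    (h : ∀ T, Module.finrank ℚ_[2] ((Fin M → ℚ_[2]) ⧸ W T) ≤ f) :
    ∃ l : Fin M → ℚ_[2], l ≠ 0 ∧ ∀ T, l ∈ W T := by
  set Φ : (Fin M → ℚ_[2]) →ₗ[ℚ_[2]] (∀ T, (Fin M → ℚ_[2]) ⧸ W T) :=
    LinearMap.pi fun T => (W T).mkQ with hΦ
  have hfr : Module.finrank ℚ_[2] (∀ T, (Fin M → ℚ_[2]) ⧸ W T) <
      Module.finrank ℚ_[2] (Fin M → ℚ_[2]) := by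
    rw [Module.finrank_pi_fintype, Module.finrank_fintype_fun_eq_card, Fintype.card_fin]
    calc ∑ T, Module.finrank ℚ_[2] ((Fin M → ℚ_[2]) ⧸ W T) ≤ ∑ _T : J, f :=
          Finset.sum_le_sum fun T _ => h T
      _ = Fintype.card J * f := by
          rw [Finset.sum_const, Finset.card_univ, smul_eq_mul]
      _ < M := hM
  obtain ⟨l, hl, hl0⟩ := Submodule.exists_mem_ne_zero_of_ne_bot
    (LinearMap.ker_ne_bot_of_finrank_lt (f := Φ) hfr)
  refine ⟨l, hl0, fun T => ?_⟩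
  have h1 := congrFun (LinearMap.mem_ker.1 hl) T
  exact (Submodule.Quotient.mk_eq_zero _).1 h1

/-- the number of the characters -/
lemma card_char_le {G : Type} [Group G] {H : Subgroup G} [H.Normal] [Fintype (G ⧸ H)]
    (J : Finset (G →* ℤˣ)) (hJ : ∀ χ ∈ J, ∀ σ ∈ H, χ σ = 1) : J.card ≤ H.index := by
  let Ψ : J → (G ⧸ H →* ℚ) := fun χ =>
    ((Int.castRingHom ℚ).toMonoidHom.comp (Units.coeHom ℤ)).comp
      (QuotientGroup.lift H χ.1 (hJ χ.1 χ.2))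
  have hΨ : Function.Injective Ψ := by
    intro χ χ' h
    apply Subtype.ext
    apply MonoidHom.ext
    intro g
    have h1 := DFunLike.congr_fun h (g : G ⧸ H)
    have h2 : (((χ.1 g : ℤˣ) : ℤ) : ℚ) = (((χ'.1 g : ℤˣ) : ℤ) : ℚ) := h1
    exact Units.ext (Int.cast_injective h2)
  have hli := (linearIndependent_monoidHom (G ⧸ H) ℚ).comp Ψ hΨ
  have h1 := hli.fintype_card_le_finrank
  rw [Module.finrank_fintype_fun_eq_card, Fintype.card_coe] at h1
  rw [Subgroup.index, Nat.card_eq_fintype_card]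
  exact h1

lemma sg_mul {G : Type} [Group G] (χ χ' : G →* ℤˣ) (σ : G) :
    sg (χ * χ') σ = sg χ σ * sg χ' σ := by
  unfold sg
  rw [MonoidHom.mul_apply, Units.val_mul, Int.cast_mul]

/-- the relations between classes -/
def relW {B G : Type} [Group G] (R : Representation ℚ_[2] G (B → ℚ_[2])) {M : ℕ}
    (C : Fin M → G → B → ℚ_[2]) : Submodule ℚ_[2] (Fin M → ℚ_[2]) where
  carrier := {l | ∃ y, ∀ σ, ∑ j, l j • C j σ = R σ y - y}
  add_mem' := by
    rintro l l' ⟨y, hy⟩ ⟨y', hy'⟩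
    refine ⟨y + y', fun σ => ?_⟩
    simp only [Pi.add_apply, add_smul, Finset.sum_add_distrib, hy, hy', map_add]
    abel
  zero_mem' := ⟨0, fun σ => by simp⟩
  smul_mem' := by
    rintro a l ⟨y, hy⟩
    refine ⟨a • y, fun σ => ?_⟩
    have h1 : ∑ j, (a • l) j • C j σ = a • ∑ j, l j • C j σ := by
      rw [Finset.smul_sum]
      refine Finset.sum_congr rfl fun j _ => ?_
      rw [Pi.smul_apply, smul_eq_mul, mul_smul]
    rw [h1, hy, map_smul, smul_sub]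

lemma cor_sum {B G : Type} [Group G] {R : Representation ℚ_[2] G (B → ℚ_[2])} {χ : G →* ℤˣ}
    {H : Subgroup G} [Fintype (G ⧸ H)] {J : Type} [Fintype J] (f : J → G → B → ℚ_[2])
    (l : J → ℚ_[2]) (σ : G) : cor (H := H) R χ (fun σ => ∑ j, l j • f j σ) σ =
      ∑ j, l j • cor (H := H) R χ (f j) σ := by
  unfold cor
  simp only [map_sum, map_smul, Finset.smul_sum]
  rw [Finset.sum_comm]

end lin

section

variable {i₀ : QB} (hi : i₀ ^ 2 = i₀ - 2)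
variable {D₀ s₀ : OO} {I : QB} {ι₁ ι₂ : QB →ₐ[ℚ] PadicAlgCl 2} {n i : ℕ} {a b c d : Fin n → OO}
  {rk : Fin n → QB} {ρ : Fin n → GK i₀ →* Matrix (Fin 2) (Fin 2) ℤ_[2]} {ψ : GK i₀ →* ℤ_[2]ˣ}

/-- **The dimension bound over multiquadratic extensions.** -/
theorem tower_dim (hLT : S_LATT) (hC2 : S_CORE2) (hI : I ^ 2 = -1) (hι₁ : ‖ι₁ i₀‖ < 1)
    (hι₂ : ‖ι₂ (1 - i₀)‖ < 1) (hn0 : 0 < n)
    (hρ : ∀ k, Rho hi (a k) (b k) (c k) (rk k) I ι₁ ι₂ (ρ k))
    (hrk : ∀ k, rk k ^ 2 = em hi (d k)) (hs₀ : s₀ ≠ 0) (hprod : ∏ k, d k = D₀ * s₀ ^ 2)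
    (h0 : ∀ k, a k * b k * c k ≠ 0)
    (hneg : ∀ k π, Prime π → ¬ π ∣ 2 → π ∣ a k * b k * c k → Sqm π (-1))
    {m : ℕ} {δ : Fin m → OO} {s : Fin m → QB} (hs : ∀ j, s j ^ 2 = em hi (δ j))
    (hgood : ∀ T : Finset (Fin m), ∃ (N : ℕ) (q : Fin N → OO) (D e : OO),
      GTw a b c (D₀ * ∏ j ∈ T, δ j) D e q)
    {H : Subgroup (GK i₀)} (hH : ∀ σ, σ ∈ H ↔ ∀ j, σ (s j) = s j)
    (tc : TC I ψ) (z : ℤ) (F : Finset (Fin n → Fin 2))
    (hF : ∀ x, x ∈ F ↔ z < (cn x 0 : ℤ) ∧ z < (cn x 1 : ℤ))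
    (f : Fin (H.index * F.card + 1) → GK i₀ → (Fin n → Fin 2) → ℚ_[2])
    (hfc : ∀ j, ContinuousOn (f j) H)
    (hfm : ∀ j, ∀ σ ∈ H, ∀ τ ∈ H, f j (σ * τ) = f j σ + tR ρ ψ i σ (f j τ))
    (hodd : ∀ j (p : ℕ) [Fact p.Prime] (ι : QB →ₐ[ℚ] PadicAlgCl p), p ≠ 2 →
      ∃ y, ∀ σ ∈ (II ι : Set (GK i₀)), σ ∈ H → f j σ = tR ρ ψ i σ y - y)
    (h1 : ∀ j, ∀ g : GK i₀, ∃ y, ∀ σ ∈ (II ι₁ : Set (GK i₀)), σ ∈ H → ∀ x, (cn x 0 : ℤ) ≤ z →
      tR ρ ψ i g (f j (g⁻¹ * σ * g)) x = (tR ρ ψ i σ y - y) x)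
    (h2 : ∀ j, ∀ g : GK i₀, ∃ y, ∀ σ ∈ (II ι₂ : Set (GK i₀)), σ ∈ H → ∀ x, (cn x 1 : ℤ) ≤ z →
      tR ρ ψ i g (f j (g⁻¹ * σ * g)) x = (tR ρ ψ i σ y - y) x) :
    ∃ l : Fin (H.index * F.card + 1) → ℚ_[2], l ≠ 0 ∧ ∃ y, ∀ σ ∈ H,
      ∑ j, l j • f j σ = tR ρ ψ i σ y - y := by
  -- the square roots
  have hX : ∀ T : Finset (Fin m), D₀ * ∏ j ∈ T, δ j ≠ 0 := by
    intro T
    obtain ⟨N, q, D, e, h⟩ := hgood T
    rw [h.eq]
    exact mul_ne_zero h.D_ne (pow_ne_zero _ h.ne)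
  have hδ : ∀ j, δ j ≠ 0 := by
    intro j hj
    apply hX {j}
    rw [Finset.prod_singleton, hj, mul_zero]
  have hsne : ∀ j, s j ≠ 0 := by
    intro j hj
    have h3 := hs j
    rw [hj, zero_pow two_ne_zero] at h3
    exact em_ne hi (hδ j) h3.symm
  have hor : ∀ j (σ : GK i₀), σ (s j) = s j ∨ σ (s j) = -s j := fun j σ => rt_or hi (hs j) σ
  set χ : Fin m → GK i₀ →* ℤˣ := fun j => chs (s j) (hor j) (hsne j) with hχ
  have hχs : ∀ j σ, σ (s j) = (((χ j σ : ℤˣ) : ℤ) : QB) * s j := fun j σ =>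
    chs_apply (s j) (hor j) (hsne j) σ
  have hχ1 : ∀ j σ, χ j σ = 1 ↔ σ (s j) = s j := fun j σ =>
    chs_one (s := s j) (h := hor j) (h0 := hsne j)
  -- the subgroup
  have hker : H = (MonoidHom.pi χ).ker := by
    ext σ
    rw [hH, MonoidHom.mem_ker]
    constructor
    · intro h
      funext j
      exact (hχ1 j σ).2 (h j)
    · intro h j
      exact (hχ1 j σ).1 (congrFun h j)
  have hN : H.Normal := by
    rw [hker]
    infer_instance
  have hFin : Finite (GK i₀ ⧸ H) := by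
    rw [hker]
    have : (MonoidHom.pi χ).ker.FiniteIndex := Subgroup.finiteIndex_ker _
    infer_instance
  have hFt : Fintype (GK i₀ ⧸ H) := Fintype.ofFinite _
  have hopen : IsOpen (H : Set (GK i₀)) := by
    have e : (H : Set (GK i₀)) = ⋂ j, {σ : GK i₀ | σ (s j) = s j} := by
      ext σ
      rw [SetLike.mem_coe, hH, Set.mem_iInter]
      rfl
    rw [e]
    exact isOpen_iInter_of_finite fun j =>
      (Pool.Agent.W309.TD.locConst_apply (K := KK i₀) (Ω := QB) (s j)).isOpen_fiber (s j)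
  set χT : Finset (Fin m) → GK i₀ →* ℤˣ := fun T => ∏ j ∈ T, χ j with hχT
  have hT1 : ∀ T, ∀ σ ∈ H, χT T σ = 1 := by
    intro T σ hσ
    rw [hχT]
    show (∏ j ∈ T, χ j) σ = 1
    rw [MonoidHom.finsetProd_apply]
    exact Finset.prod_eq_one fun j _ => (hχ1 j σ).2 ((hH σ).1 hσ j)
  have hsq : ∀ j, χ j * χ j = 1 := by
    intro j
    apply MonoidHom.ext
    intro σ
    show χ j σ * χ j σ = 1
    rcases Int.units_eq_one_or (χ j σ) with h | h <;> rw [h] <;> norm_num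
  set JJ : Finset (GK i₀ →* ℤˣ) := Finset.univ.image χT with hJJ
  have hJm : ∀ j, ∀ η ∈ JJ, χ j * η ∈ JJ := by
    intro j η hη
    obtain ⟨T, -, rfl⟩ := Finset.mem_image.1 hη
    by_cases hj : j ∈ T
    · refine Finset.mem_image.2 ⟨T.erase j, Finset.mem_univ _, ?_⟩
      show ∏ k ∈ T.erase j, χ k = χ j * ∏ k ∈ T, χ k
      rw [← Finset.mul_prod_erase T χ hj, ← mul_assoc, hsq, one_mul]
    · refine Finset.mem_image.2 ⟨insert j T, Finset.mem_univ _, ?_⟩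
      show ∏ k ∈ insert j T, χ k = χ j * ∏ k ∈ T, χ k
      rw [Finset.prod_insert hj]
  have hsum : ∀ σ, σ ∉ H → ∑ η : JJ, sg η.1 σ = 0 := by
    intro σ hσ
    rw [Finset.sum_coe_sort JJ fun η => sg η σ]
    rw [hH] at hσ
    push Not at hσ
    obtain ⟨j, hj⟩ := hσ
    have h3 : χ j σ = -1 := by
      rcases Int.units_eq_one_or (χ j σ) with h4 | h4
      · exact absurd ((hχ1 j σ).1 h4) hj
      · exact h4
    have h4 : sg (χ j) σ = -1 := by
      unfold sg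
      rw [h3]
      simp
    have h5 : ∑ η ∈ JJ, sg η σ = ∑ η ∈ JJ, sg (χ j * η) σ := by
      refine Finset.sum_nbij' (fun η => χ j * η) (fun η => χ j * η) (hJm j) (hJm j) ?_ ?_ ?_
      · intro η _
        show χ j * (χ j * η) = η
        rw [← mul_assoc, hsq, one_mul]
      · intro η _
        show χ j * (χ j * η) = η
        rw [← mul_assoc, hsq, one_mul]
      · intro η _
        show sg η σ = sg (χ j * (χ j * η)) σ
        rw [← mul_assoc, hsq, one_mul]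
    have h6 : ∑ η ∈ JJ, sg (χ j * η) σ = -∑ η ∈ JJ, sg η σ := by
      rw [← Finset.sum_neg_distrib]
      refine Finset.sum_congr rfl fun η _ => ?_
      rw [sg_mul, h4, neg_one_mul]
    rw [h6] at h5
    exact self_eq_neg.1 h5
  set k₀ : Fin n := ⟨0, hn0⟩ with hk₀
  have hst1 : ∀ σ ∈ (IIs ι₁ : Subgroup (GK i₀)), ∀ v : (Fin n → Fin 2) → ℚ_[2],
      (∀ b ∈ {x | (cn x 0 : ℤ) ≤ z}, v b = 0) → ∀ b ∈ {x : Fin n → Fin 2 | (cn x 0 : ℤ) ≤ z},
      tR ρ ψ i σ v b = 0 := by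
    intro σ hσ v hv b hb
    have hb0 : (cn b 0 : ℤ) ≤ z := hb
    obtain ⟨m', rfl⟩ := Int.eq_ofNat_of_zero_le (le_trans (Int.natCast_nonneg _) hb0)
    have hb' : cn b 0 ≤ m' := by exact_mod_cast hb0
    refine tR_stable ρ ψ i (t := 0) (m := m') (fun k t ht => ?_) (fun b hb => hv b (by
      show (cn b 0 : ℤ) ≤ m'
      exact_mod_cast hb)) b hb'
    have h01 : ∀ s : Fin 2, s ≠ 0 → s = 1 := by decide
    rw [h01 t ht]
    exact (hρ k).d1 σ (II_sub hσ)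
  have hst2 : ∀ σ ∈ (IIs ι₂ : Subgroup (GK i₀)), ∀ v : (Fin n → Fin 2) → ℚ_[2],
      (∀ b ∈ {x | (cn x 1 : ℤ) ≤ z}, v b = 0) → ∀ b ∈ {x : Fin n → Fin 2 | (cn x 1 : ℤ) ≤ z},
      tR ρ ψ i σ v b = 0 := by
    intro σ hσ v hv b hb
    have hb0 : (cn b 1 : ℤ) ≤ z := hb
    obtain ⟨m', rfl⟩ := Int.eq_ofNat_of_zero_le (le_trans (Int.natCast_nonneg _) hb0)
    have hb' : cn b 1 ≤ m' := by exact_mod_cast hb0
    refine tR_stable ρ ψ i (t := 1) (m := m') (fun k t ht => ?_) (fun b hb => hv b (by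
      show (cn b 1 : ℤ) ≤ m'
      exact_mod_cast hb)) b hb'
    have h10 : ∀ s : Fin 2, s ≠ 1 → s = 0 := by decide
    rw [h10 t ht]
    exact (hρ k).d2 σ (II_sub hσ)
  -- the relations between the corestrictions
  have hfr : ∀ T : Finset (Fin m), Module.finrank ℚ_[2] ((Fin (H.index * F.card + 1) → ℚ_[2]) ⧸
      relW (twR (tR ρ ψ i) (χT T)) (fun j => cor (H := H) (tR ρ ψ i) (χT T) (f j))) ≤ F.card := by
    intro T
    refine codim_le _ fun v => ?_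
    obtain ⟨N, q, D, e, hg⟩ := hgood T
    set sT : QB := ∏ j ∈ T, s j with hsT
    have hsT0 : sT ≠ 0 := Finset.prod_ne_zero_iff.2 fun j _ => hsne j
    have hsTσ : ∀ σ : GK i₀, σ sT = (((χT T σ : ℤˣ) : ℤ) : QB) * sT := fun σ =>
      prod_chs χ hχs T σ
    have hsT2 : sT ^ 2 = em hi (∏ j ∈ T, δ j) := by
      rw [hsT, ← Finset.prod_pow, map_prod]
      exact Finset.prod_congr rfl fun j _ => hs j
    -- the square roots of the twists
    set rk' : Fin n → QB := fun k => rk k * if k = k₀ then sT else 1 with hrk'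
    set d' : Fin n → OO := fun k => d k * if k = k₀ then ∏ j ∈ T, δ j else 1 with hd'
    have hrk2 : ∀ k, rk' k ^ 2 = em hi (d' k) := by
      intro k
      simp only [hrk', hd']
      rw [mul_pow, hrk k, map_mul]
      congr 1
      split_ifs
      · exact hsT2
      · rw [one_pow, map_one]
    have hprk : ∏ k, rk' k = (∏ k, rk k) * sT := by
      simp only [hrk']
      rw [Finset.prod_mul_distrib, Finset.prod_ite_eq', if_pos (Finset.mem_univ _)]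
    have hs' : e * s₀ ≠ 0 := mul_ne_zero hg.ne hs₀
    have hems : em hi (e * s₀) ≠ 0 := em_ne hi hs'
    have hrs : (∏ k, rk' k) / em hi (e * s₀) * em hi (e * s₀) = ∏ k, rk' k :=
      div_mul_cancel₀ _ hems
    have hr : ((∏ k, rk' k) / em hi (e * s₀)) ^ 2 = em hi D := by
      rw [div_pow, div_eq_iff (pow_ne_zero _ hems), hprk, mul_pow, hsT2, ← Finset.prod_pow]
      simp only [hrk]
      rw [← map_prod, hprod, ← map_mul, ← map_pow, ← map_mul]
      congr 1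
      have h3 := hg.eq
      linear_combination s₀ ^ 2 * h3
    have hρ' : ∀ k, Rho hi (a k) (b k) (c k) (rk' k) I ι₁ ι₂ (twF ρ k₀ (χT T) k) := by
      intro k
      simp only [hrk']
      unfold twF
      split_ifs with hk
      · exact rho_tw (hρ k) hsT0 hsTσ
      · rw [mul_one]
        exact hρ k
    have hV : ∀ j, VCoc (twR (tR ρ ψ i) (χT T)) (cor (H := H) (tR ρ ψ i) (χT T) (f j)) := fun j =>
      ⟨cor_cont hopen (hfc j), cor_mul (hT1 T) (hfm j)⟩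
    have hVo : ∀ j (p : ℕ) [Fact p.Prime] (ι : QB →ₐ[ℚ] PadicAlgCl p), p ≠ 2 →
        VCob (twR (tR ρ ψ i) (χT T)) (II ι) (cor (H := H) (tR ρ ψ i) (χT T) (f j)) := by
      intro j p _ ι hp
      have h3 : VCobS (twR (tR ρ ψ i) (χT T)) Set.univ (IIs ι : Subgroup (GK i₀))
          (cor (H := H) (tR ρ ψ i) (χT T) (f j)) := by
        refine cor_local (hT1 T) (hfm j) ?_ ?_
        · intro σ _ v hv b _
          have hv0 : v = 0 := funext fun b => hv b (Set.mem_univ _)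
          rw [hv0, map_zero]
          rfl
        · intro g
          obtain ⟨y, hy⟩ := hodd j p (ι.comp ((g : QB →ₐ[KK i₀] QB).restrictScalars ℚ)) hp
          refine ⟨tR ρ ψ i g y, fun σ hσ hσH b _ => ?_⟩
          have hm : g⁻¹ * σ * g ∈ H := by
            have h4 := hN.conj_mem σ hσH g⁻¹
            rwa [inv_inv] at h4
          rw [hy _ (conj_II hσ g) hm, map_sub, ← Pool.Agent.K3h45.ST.RM, ← Pool.Agent.K3h45.ST.RM]
          group
      obtain ⟨y, hy⟩ := h3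
      exact ⟨y, fun σ hσ => funext fun b => hy σ hσ b (Set.mem_univ _)⟩
    have hV1 : ∀ j, VCobS (twR (tR ρ ψ i) (χT T)) {x | (cn x 0 : ℤ) ≤ z} (II ι₁)
        (cor (H := H) (tR ρ ψ i) (χT T) (f j)) := by
      intro j
      have h3 : VCobS (twR (tR ρ ψ i) (χT T)) {x | (cn x 0 : ℤ) ≤ z}
          (IIs ι₁ : Subgroup (GK i₀)) (cor (H := H) (tR ρ ψ i) (χT T) (f j)) := by
        refine cor_local (hT1 T) (hfm j) hst1 fun g => ?_
        obtain ⟨y, hy⟩ := h1 j g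
        exact ⟨y, fun σ hσ hσH b hb => hy σ hσ hσH b hb⟩
      exact h3
    have hV2 : ∀ j, VCobS (twR (tR ρ ψ i) (χT T)) {x | (cn x 1 : ℤ) ≤ z} (II ι₂)
        (cor (H := H) (tR ρ ψ i) (χT T) (f j)) := by
      intro j
      have h3 : VCobS (twR (tR ρ ψ i) (χT T)) {x | (cn x 1 : ℤ) ≤ z}
          (IIs ι₂ : Subgroup (GK i₀)) (cor (H := H) (tR ρ ψ i) (χT T) (f j)) := by
        refine cor_local (hT1 T) (hfm j) hst2 fun g => ?_
        obtain ⟨y, hy⟩ := h2 j g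
        exact ⟨y, fun σ hσ hσH b hb => hy σ hσ hσH b hb⟩
      exact h3
    rw [← tR_twF ρ k₀ (χT T) ψ i] at hV hVo hV1 hV2
    obtain ⟨l, hl, y, hy⟩ := pdim hi hLT hC2 hg.pr hg.inj hg.five hg.ind hg.prod hr hI hι₁ hι₂ hρ'
      hrk2 hs' hrs h0 (fun k π hπ h3 h4 => ⟨hneg k π hπ h3 h4, hg.bad k π hπ h3 h4⟩) tc z F hF
      (fun k σ => ∑ j, v k j • cor (H := H) (tR ρ ψ i) (χT T) (f j) σ)
      (fun k => comb_coc hV (v k)) (fun k p _ ι hp => comb_cob (fun j => hVo j p ι hp) (v k))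
      (fun k => comb_cobS hV1 (v k)) (fun k => comb_cobS hV2 (v k))
    refine ⟨l, hl, y, fun σ => ?_⟩
    rw [← tR_twF ρ k₀ (χT T) ψ i, ← hy σ]
    simp only [Finset.sum_apply, Pi.smul_apply, smul_eq_mul, Finset.sum_smul, Finset.smul_sum,
      mul_smul]
    rw [Finset.sum_comm]
  have hJ1 : ∀ η ∈ JJ, ∀ σ ∈ H, η σ = 1 := by
    intro η hη σ hσ
    obtain ⟨T, -, rfl⟩ := Finset.mem_image.1 hη
    exact hT1 T σ hσ
  have hcard : Fintype.card JJ * F.card < H.index * F.card + 1 := by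
    rw [Fintype.card_coe]
    exact Nat.lt_succ_of_le (Nat.mul_le_mul_right _ (card_char_le JJ hJ1))
  obtain ⟨l, hl, hlT⟩ := exists_common (J := JJ) (M := H.index * F.card + 1) (f := F.card) hcard
    (fun η => relW (twR (tR ρ ψ i) η.1) (fun j => cor (H := H) (tR ρ ψ i) η.1 (f j))) (by
      rintro ⟨η, hη⟩
      obtain ⟨T, -, rfl⟩ := Finset.mem_image.1 hη
      exact hfr T)
  have hne : Nonempty JJ := ⟨⟨χT ∅, Finset.mem_image_of_mem _ (Finset.mem_univ _)⟩⟩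
  refine ⟨l, hl, ?_⟩
  refine cor_global (H := H) (J := JJ) (χ := fun η => η.1) (c := fun σ => ∑ j, l j • f j σ)
    (fun η σ hσ => hJ1 η.1 η.2 σ hσ) hsum ?_ fun η => ?_
  · intro σ hσ τ hτ
    rw [map_sum, ← Finset.sum_add_distrib]
    refine Finset.sum_congr rfl fun j _ => ?_
    rw [hfm j σ hσ τ hτ, smul_add, map_smul]
  · obtain ⟨y, hy⟩ := hlT η
    exact ⟨y, fun σ => by rw [cor_sum, hy σ]⟩

end

end Pool.Agent.K3h12.DM
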