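import Pool.Agent.K3h12.DM.Stm

/-!
# The dimension of the semistable classes: the vector version
-/

set_option autoImplicit false
set_option linter.unusedSectionVars false

namespace Pool.Agent.K3h12.DM

open Pool.Agent.R384
open Pool.Agent.Y715.Red Pool.Agent.Y715.Nr Pool.Agent.W237.RK
open Pool.Agent.Y715.Gi (QB KK GK i₀_mem gk_fix)
open Pool.Agent.Y715.Df (Cmp exists_cmp)
open Pool.Agent.Y715.Lc (norm_two_odd)

open scoped Classical

variable {B : Type} [Fintype B]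

variable {i₀ : QB} (hi : i₀ ^ 2 = i₀ - 2)
  {R : Representation ℚ_[2] (GK i₀) (B → ℚ_[2])} {rt : B → QB} {mm : B → OO}

/-- the conditions at the odd places -/
def Pl (R : Representation ℚ_[2] (GK i₀) (B → ℚ_[2])) (rt : B → QB) (mm : B → OO) : Prop :=
  ∀ (p : ℕ) [Fact p.Prime] (ι : QB →ₐ[ℚ] PadicAlgCl p), p ≠ 2 →
      (∀ σ ∈ (II ι : Set (GK i₀)), ((∀ v, R σ v = v) ∧ ∀ b, σ (rt b) = rt b) ∨
        ((∀ v, R σ v = -v) ∧ ∀ b, σ (rt b) = -rt b)) ∨
      ((∃ F ∈ (DD ι : Set (GK i₀)), ∀ b, F (rt b) = -rt b) ∧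
        (∀ σ ∈ (II ι : Set (GK i₀)), ∀ b, σ (rt b) = rt b) ∧
        ∀ b, ¬ ‖em (iw hi ι) (mm b)‖ < 1)

/-- the local conditions at the places prime to two, for an integral cocycle -/
theorem locals {n : ℕ} {q : Fin n → OO} (hq : ∀ i, Pr (q i)) (hinj : Function.Injective q)
    (hm : ∀ b, mm b = ∏ i, q i ∨ mm b = -∏ i, q i) (vd : VD hi R rt mm) (hpl : Pl hi R rt mm)
    {c' : GK i₀ → B → ℚ_[2]} (hcc : VCoc R c') (hint : ∀ σ, ‖c' σ‖ ≤ 1)
    (hodd' : ∀ (p : ℕ) [Fact p.Prime] (ι : QB →ₐ[ℚ] PadicAlgCl p), p ≠ 2 → VCob R (II ι) c')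
    (b : B) :
    (∀ (p : ℕ) [Fact p.Prime] (ι : QB →ₐ[ℚ] PadicAlgCl p), p ≠ 2 →
      ¬ ‖em (iw hi ι) (mm b)‖ < 1 → ∀ σ ∈ (II ι : Set (GK i₀)), md (fun σ => c' σ b) σ = 0) ∧
    (∀ (p : ℕ) [Fact p.Prime] (ι : QB →ₐ[ℚ] PadicAlgCl p), p ≠ 2 →
      ‖em (iw hi ι) (mm b)‖ < 1 → Dich (md fun σ => c' σ b) (rt b) (DD ι)) := by
  refine ⟨?_, ?_⟩
  · intro p _ ι hp hu σ hσ
    rcases hpl p ι hp with h | ⟨⟨F, hF, hFb⟩, hI, hu'⟩
    · obtain ⟨z, hz⟩ := hodd' p ι hp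
      have h1 : σ (rt b) = rt b := by
        obtain ⟨τ, hτ, hin⟩ := hσ
        have h1 : (ι (rt b)) ^ 2 = em (iw hi ι) (mm b) := by rw [← map_pow, vd.hr b, ι_em]
        have h2 : τ (ι (rt b)) = ι (rt b) := fix_of_unit (iw hi ι) hp h1 hu hin hτ.fix
        apply ι.injective
        show ι (σ (rt b)) = ι (rt b)
        rw [← hτ, h2]
      rcases h σ hσ with ⟨h2, -⟩ | ⟨-, h2⟩
      · rw [md_zero]
        show ‖c' σ b‖ < 1
        rw [hz σ hσ, h2, sub_self, Pi.zero_apply, norm_zero]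
        norm_num
      · exfalso
        rw [h2 b] at h1
        exact ne_neg' (vd.rt0 hi b) h1.symm
    · have h1 := vmult hcc hint (hodd' p ι hp) (vd.mv hi hFb) (fun σ hσ => conj_mem hσ hF)
        (fun σ hσ v => by
          have hv := norm_nonneg v
          rw [pi_norm_le_iff_of_nonneg (by linarith)]
          intro b
          rw [Pi.sub_apply]
          exact vd.one σ b (hI σ hσ b) v) σ hσ
      rw [md_zero]
      exact (norm_le_pi_norm (c' σ) b).trans_lt h1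
  · intro p _ ι hp hu
    rcases hpl p ι hp with h | ⟨-, -, hu'⟩
    · -- an element of the inertia group that moves `rt b`
      have hqi : ∃ i, ‖em (iw hi ι) (q i)‖ < 1 := by
        by_contra hcon
        push Not at hcon
        have h1 : ∀ i, ‖em (iw hi ι) (q i)‖ = 1 := fun i => eq_one_of_not_lt _ (not_lt.2 (hcon i))
        have h2 : ‖em (iw hi ι) (∏ i, q i)‖ = 1 := by
          rw [map_prod, norm_prod]
          exact Finset.prod_eq_one fun i _ => h1 i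
        have h3 : ‖em (iw hi ι) (mm b)‖ = 1 := by
          rcases hm b with h | h
          · rw [h, h2]
          · rw [h, map_neg, norm_neg, h2]
        rw [h3] at hu
        exact lt_irrefl _ hu
      obtain ⟨i, hqi⟩ := hqi
      obtain ⟨m1, hm1, hm1'⟩ : ∃ m1, mm b = q i * m1 ∧ ¬ q i ∣ m1 := by
        have h1 := Finset.mul_prod_erase Finset.univ q (Finset.mem_univ i)
        have h2 := nd_prod hq hinj (Finset.notMem_erase i Finset.univ)
        rcases hm b with h | h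
        · exact ⟨_, by rw [h, ← h1], h2⟩
        · refine ⟨-∏ k ∈ Finset.univ.erase i, q k, by rw [h, ← h1]; ring, ?_⟩
          rwa [dvd_neg]
      obtain ⟨σ₀, h0, h2⟩ : ∃ σ ∈ (II ι : Set (GK i₀)), σ (rt b) = -rt b := by
        by_contra hcon
        push Not at hcon
        refine no_simple (iw hi ι) (hq i).prime hqi hm1' (s := ι (rt b)) ?_ ?_
        · rw [← map_pow, vd.hr b, ι_em, hm1]
        · intro τ hin hτ
          refine fix_I (fun σ hσ => ?_) τ hin hτ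
          rcases rt_or hi (vd.hr b) σ with h | h
          · exact h
          · exact absurd h (hcon σ hσ)
      rcases h σ₀ h0 with ⟨-, h3⟩ | ⟨h3, h4⟩
      · exfalso
        rw [h3 b] at h2
        exact ne_neg' (vd.rt0 hi b) h2
      · have hD := vdec_of_inert hcc (D := DD ι) (hodd' p ι hp) h0 h3 fun τ hτ => conj_mem h0 hτ
        refine vdich hi vd hint (S := Set.univ) ?_ (hD.toS _) (II_sub h0) h4 b (Set.mem_univ b)
        intro σ _ v hv b' _
        have : v = 0 := funext fun b => hv b (Set.mem_univ b)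
        rw [this, map_zero, Pi.zero_apply]
    · exact absurd hu (hu' b)

/-- integers modulo four -/
noncomputable def m4 (x : ℚ_[2]) : ZMod 4 :=
  if h : ‖x‖ ≤ 1 then PadicInt.toZModPow 2 (⟨x, h⟩ : ℤ_[2]) else 0

theorem m4_coe (z : ℤ_[2]) : m4 (z : ℚ_[2]) = PadicInt.toZModPow 2 z := by
  unfold m4
  rw [dif_pos z.2]
  rfl

theorem exists_z {x : ℚ_[2]} (hx : ‖x‖ ≤ 1) : ∃ z : ℤ_[2], (z : ℚ_[2]) = x := ⟨⟨x, hx⟩, rfl⟩

theorem m4_sub {x y : ℚ_[2]} (hx : ‖x‖ ≤ 1) (hy : ‖y‖ ≤ 1) (h : ‖x - y‖ ≤ 1 / 4) :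
    m4 x = m4 y := by
  obtain ⟨x, rfl⟩ := exists_z hx
  obtain ⟨y, rfl⟩ := exists_z hy
  rw [m4_coe, m4_coe, ← sub_eq_zero, ← map_sub, ← RingHom.mem_ker, PadicInt.ker_toZModPow,
    ← PadicInt.norm_le_pow_iff_mem_span_pow, PadicInt.norm_def, PadicInt.coe_sub]
  refine h.trans (le_of_eq ?_)
  norm_num

theorem m4_add {x y : ℚ_[2]} (hx : ‖x‖ ≤ 1) (hy : ‖y‖ ≤ 1) : m4 (x + y) = m4 x + m4 y := by
  obtain ⟨x, rfl⟩ := exists_z hx
  obtain ⟨y, rfl⟩ := exists_z hy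
  rw [← PadicInt.coe_add, m4_coe, m4_coe, m4_coe, map_add]

theorem m4_neg {x : ℚ_[2]} (hx : ‖x‖ ≤ 1) : m4 (-x) = -m4 x := by
  obtain ⟨x, rfl⟩ := exists_z hx
  rw [← PadicInt.coe_neg, m4_coe, m4_coe, map_neg]

theorem m4_two {x : ℚ_[2]} (hx : ‖x‖ ≤ 1) : 2 * m4 x = 0 ↔ ‖x‖ < 1 := by
  obtain ⟨x, rfl⟩ := exists_z hx
  have e : (2 : ZMod 4) = PadicInt.toZModPow 2 (2 : ℤ_[2]) := by
    rw [map_ofNat]
  have h2 : ‖(2 : ℤ_[2])‖ = 1 / 2 := by
    have := PadicInt.norm_p (p := 2)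
    simpa using this
  rw [m4_coe, e, ← map_mul, ← RingHom.mem_ker, PadicInt.ker_toZModPow,
    ← PadicInt.norm_le_pow_iff_mem_span_pow, norm_mul, h2, ← PadicInt.norm_def]
  constructor
  · intro h
    norm_num at h
    linarith
  · intro h
    have h4 : ‖x‖ ≤ 1 / 2 := by
      rw [PadicInt.norm_def] at h ⊢
      exact norm_lt_one h
    norm_num
    linarith

/-- the class of a coordinate of an integral cocycle -/
theorem lf_of {n : ℕ} {q : Fin n → OO} (hq : ∀ i, Pr (q i)) (hinj : Function.Injective q)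
    (hm : ∀ b, mm b = ∏ i, q i ∨ mm b = -∏ i, q i) (vd : VD hi R rt mm) (hpl : Pl hi R rt mm)
    {c' : GK i₀ → B → ℚ_[2]} (hcc : VCoc R c') (hint : ∀ σ, ‖c' σ‖ ≤ 1)
    (hodd' : ∀ (p : ℕ) [Fact p.Prime] (ι : QB →ₐ[ℚ] PadicAlgCl p), p ≠ 2 → VCob R (II ι) c')
    (b : B) : LF hi (mm b) (rt b) (md fun σ => c' σ b) := by
  have hb1 : ∀ σ, ‖c' σ b‖ ≤ 1 := fun σ => (norm_le_pi_norm (c' σ) b).trans (hint σ)
  obtain ⟨h1, h2⟩ := locals hi hq hinj hm vd hpl hcc hint hodd' b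
  refine ⟨(vmd hi vd hcc hint b).1, (vmd hi vd hcc hint b).2, h1, h2,
    fun σ => m4 (c' σ b), ?_, ?_, ?_, ?_⟩
  · rw [IsLocallyConstant.iff_exists_open]
    intro σ
    refine ⟨{τ | ‖c' τ b - c' σ b‖ < 1 / 4}, ?_, by simp, fun τ hτ => ?_⟩
    · refine isOpen_lt ?_ continuous_const
      have h1 : Continuous fun τ => c' τ b := (continuous_apply b).comp hcc.cont
      fun_prop
    · exact m4_sub (hb1 τ) (hb1 σ) (le_of_lt hτ)
  · intro σ τ hσ
    rw [← m4_add (hb1 σ) (hb1 τ)]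
    refine m4_sub (hb1 _) (add_le' (hb1 σ) (hb1 τ)) ?_
    rw [hcc.mul, Pi.add_apply]
    have e : c' σ b + R σ (c' τ) b - (c' σ b + c' τ b) = R σ (c' τ) b - c' τ b := by ring
    rw [e]
    have h3 := vd.one σ b hσ (c' τ)
    have h4 := hint τ
    linarith
  · intro σ τ hσ
    rw [sub_eq_add_neg, ← m4_neg (hb1 τ), ← m4_add (hb1 σ) (by rw [norm_neg]; exact hb1 τ)]
    refine m4_sub (hb1 _) (add_le' (hb1 σ) (by rw [norm_neg]; exact hb1 τ)) ?_
    rw [hcc.mul, Pi.add_apply]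
    have e : c' σ b + R σ (c' τ) b - (c' σ b + -c' τ b) = R σ (c' τ) b + c' τ b := by ring
    rw [e]
    have h3 := vd.neg σ b hσ (c' τ)
    have h4 := hint τ
    linarith
  · intro σ
    rw [m4_two (hb1 σ), md_zero]

/-- sums modulo two -/
theorem md_add_iff {x y : ℚ_[2]} (hx : ‖x‖ ≤ 1) (hy : ‖y‖ ≤ 1) :
    ‖x + y‖ < 1 ↔ (‖x‖ < 1 ↔ ‖y‖ < 1) := by
  have key : ¬ ‖x‖ < 1 → ¬ ‖y‖ < 1 → ‖x + y‖ < 1 := by
    intro h1 h2
    have a1 := (md_eq hx).1 h1
    have a2 := (md_eq hy).1 h2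
    have h20 : ‖(2 : ℚ_[2])‖ < 1 := by rw [norm_two']; norm_num
    have e : x + y = (x - 1) + (y - 1) + 2 := by ring
    rw [e]
    exact add_lt' (add_lt' a1 a2) h20
  constructor
  · intro h
    constructor
    · intro h1
      have e : y = (x + y) + -x := by ring
      rw [e]
      exact add_lt' h (by rwa [norm_neg])
    · intro h1
      have e : x = (x + y) + -y := by ring
      rw [e]
      exact add_lt' h (by rwa [norm_neg])
  · intro h
    rcases Classical.em (‖x‖ < 1) with h1 | h1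
    · exact add_lt' h1 (h.1 h1)
    · exact key h1 fun h2 => h1 (h.2 h2)

end Pool.Agent.K3h12.DM
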