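import Pool.Agent.K3h12.DM.Vdim

/-!
# The dimension of the semistable classes: the vector version, main theorem
-/

set_option autoImplicit false
set_option linter.unusedSectionVars false

namespace Pool.Agent.K3h12.DM

open Pool.Agent.R384
open Pool.Agent.Y715.Red Pool.Agent.Y715.Nr Pool.Agent.W237.RK
open Pool.Agent.Y715.Gi (QB KK GK i₀_mem gk_fix)
open Pool.Agent.Y715.Df (Cmp exists_cmp)
open Pool.Agent.Y715.Lc (norm_two_odd)

open scoped Classical

variable {B : Type} [Fintype B]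

variable {i₀ : QB} (hi : i₀ ^ 2 = i₀ - 2)
  {R : Representation ℚ_[2] (GK i₀) (B → ℚ_[2])} {rt : B → QB} {mm : B → OO}

section comb

variable {J : Type} [Fintype J] {c : J → GK i₀ → B → ℚ_[2]}

theorem comb_coc (hc : ∀ j, VCoc R (c j)) (l : J → ℚ_[2]) :
    VCoc R fun σ => ∑ j, l j • c j σ := by
  refine ⟨continuous_finset_sum _ fun j _ => (hc j).cont.const_smul (l j), fun σ τ => ?_⟩
  rw [map_sum, ← Finset.sum_add_distrib]
  refine Finset.sum_congr rfl fun j _ => ?_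
  rw [(hc j).mul, smul_add, map_smul]

theorem comb_cobS {S : Set B} {D : Set (GK i₀)} (hc : ∀ j, VCobS R S D (c j)) (l : J → ℚ_[2]) :
    VCobS R S D fun σ => ∑ j, l j • c j σ := by
  choose x hx using hc
  refine ⟨∑ j, l j • x j, fun σ hσ b hb => ?_⟩
  show (∑ j, l j • c j σ) b = _
  rw [map_sum, Pi.sub_apply, Finset.sum_apply, Finset.sum_apply, Finset.sum_apply,
    ← Finset.sum_sub_distrib]
  refine Finset.sum_congr rfl fun j _ => ?_
  rw [map_smul, Pi.smul_apply, Pi.smul_apply, Pi.smul_apply, hx j σ hσ b hb, Pi.sub_apply,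
    smul_sub]

theorem comb_cob {D : Set (GK i₀)} (hc : ∀ j, VCob R D (c j)) (l : J → ℚ_[2]) :
    VCob R D fun σ => ∑ j, l j • c j σ := by
  obtain ⟨x, hx⟩ := comb_cobS (fun j => (hc j).toS Set.univ) l
  exact ⟨x, fun σ hσ => funext fun b => hx σ hσ b (Set.mem_univ b)⟩

end comb

/-- **The dimension bound for vectors.** -/
theorem vdim (hL : S_LATT) (hC : S_CORE2) {n : ℕ} {q : Fin n → OO} (hq : ∀ i, Pr (q i))
    (hinj : Function.Injective q) (h8 : (8 : OO) ∣ ∏ i, q i - 5) (hind : Indec q)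
    (hm : ∀ b, mm b = ∏ i, q i ∨ mm b = -∏ i, q i) (vd : VD hi R rt mm) (hpl : Pl hi R rt mm)
    {ι₁ ι₂ : QB →ₐ[ℚ] PadicAlgCl 2} (hι₁ : ‖ι₁ i₀‖ < 1) (hι₂ : ‖ι₂ (1 - i₀)‖ < 1)
    {τ₀ : GK i₀} (hτ₀ : ∀ b, τ₀ (rt b) = -rt b) (F : Finset B)
    (ϖ ϖ' : B → OO) (hϖ : ∀ b, (ϖ b = om ∧ ϖ' b = 1 - om) ∨ (ϖ b = 1 - om ∧ ϖ' b = om))
    (κ : B → (QB →ₐ[ℚ] PadicAlgCl 2)) (hκ : ∀ b, ‖κ b (em hi (ϖ b))‖ < 1)
    (hmove : ∀ b, ∃ σ ∈ (DD (κ b) : Set (GK i₀)), ∀ b, σ (rt b) = -rt b)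
    (S : B → Set B) (hS : ∀ b, b ∉ F → b ∈ S b)
    (hst : ∀ b, b ∉ F → ∀ σ ∈ (DD (κ b) : Set (GK i₀)), ∀ v : B → ℚ_[2],
      (∀ b' ∈ S b, v b' = 0) → ∀ b' ∈ S b, R σ v b' = 0)
    (c : Fin (F.card + 1) → GK i₀ → B → ℚ_[2]) (hc : ∀ j, VCoc R (c j))
    (hodd : ∀ j (p : ℕ) [Fact p.Prime] (ι : QB →ₐ[ℚ] PadicAlgCl p), p ≠ 2 →
      VCob R (II ι) (c j))
    (hstr : ∀ j b, b ∉ F → VCobS R (S b) (DD (κ b)) (c j)) :
    ∃ l : Fin (F.card + 1) → ℚ_[2], l ≠ 0 ∧ ∃ y, ∀ σ, ∑ j, l j • c j σ = R σ y - y := by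
  by_contra hn
  push Not at hn
  have hMv := vd.mv hi hτ₀
  choose y hy using fun j => hMv.surj (-(c j τ₀))
  obtain ⟨c', hc'⟩ : ∃ c' : Fin (F.card + 1) → GK i₀ → B → ℚ_[2], ∀ j σ,
      c' j σ = (1 : ℚ_[2]) • c j σ + (R σ (y j) - y j) := ⟨_, fun _ _ => rfl⟩
  have hce : ∀ j, c' j = fun σ => (1 : ℚ_[2]) • c j σ + (R σ (y j) - y j) :=
    fun j => funext (hc' j)
  have hc'0 : ∀ j, c' j τ₀ = 0 := by
    intro j
    rw [hc', hy j, one_smul, add_neg_cancel]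
  have hcc : ∀ j, VCoc R (c' j) := fun j => by
    rw [hce]
    exact (hc j).twist vd.cont 1 (y j)
  have hodd' : ∀ j (p : ℕ) [Fact p.Prime] (ι : QB →ₐ[ℚ] PadicAlgCl p), p ≠ 2 →
      VCob R (II ι) (c' j) := fun j p _ ι hp => by
    rw [hce]
    exact (hodd j p ι hp).twist 1 (y j)
  have hstr' : ∀ j b, b ∉ F → VCobS R (S b) (DD (κ b)) (c' j) := fun j b hb => by
    rw [hce]
    exact (hstr j b hb).twist 1 (y j)
  obtain ⟨G, hG⟩ : ∃ G : (Fin (F.card + 1) → ℚ_[2]) → GK i₀ → B → ℚ_[2], ∀ l,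
      G l = fun σ => ∑ j, l j • c' j σ := ⟨_, fun _ => rfl⟩
  have hGc : ∀ l, VCoc R (G l) := fun l => by rw [hG]; exact comb_coc hcc l
  have hGo : ∀ l (p : ℕ) [Fact p.Prime] (ι : QB →ₐ[ℚ] PadicAlgCl p), p ≠ 2 →
      VCob R (II ι) (G l) := fun l p _ ι hp => by
    rw [hG]
    exact comb_cob (fun j => hodd' j p ι hp) l
  have hGs : ∀ l b, b ∉ F → VCobS R (S b) (DD (κ b)) (G l) := fun l b hb => by
    rw [hG]
    exact comb_cobS (fun j => hstr' j b hb) l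
  have hG0 : ∀ l, G l τ₀ = 0 := by
    intro l
    rw [hG]
    exact Finset.sum_eq_zero fun j _ => by rw [hc'0, smul_zero]
  have hGadd : ∀ l l' σ, G (l + l') σ = G l σ + G l' σ := by
    intro l l' σ
    simp only [hG, Pi.add_apply, add_smul, Finset.sum_add_distrib]
  have hGsmul : ∀ (a : ℚ_[2]) l σ, G (a • l) σ = a • G l σ := by
    intro a l σ
    simp only [hG, Pi.smul_apply, smul_eq_mul, mul_smul, Finset.smul_sum]
  have hGinj : ∀ l, (∀ σ, G l σ = 0) → l = 0 := by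
    intro l hl
    by_contra hl0
    obtain ⟨σ, hσ⟩ := hn l hl0 (-∑ j, l j • y j)
    apply hσ
    have h1 := hl σ
    rw [hG] at h1
    have h2 : ∀ j, l j • c' j σ = l j • c j σ + (R σ (l j • y j) - l j • y j) := by
      intro j
      rw [hc', one_smul, smul_add, smul_sub, map_smul]
    simp only [h2] at h1
    rw [Finset.sum_add_distrib, Finset.sum_sub_distrib, ← map_sum] at h1
    rw [map_neg]
    rw [eq_neg_of_add_eq_zero_left h1]
    abel
  -- the norm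
  let T : (Fin (F.card + 1) → ℚ_[2]) →ₗ[ℚ_[2]] C(GK i₀, B → ℚ_[2]) :=
    { toFun := fun l => ⟨G l, (hGc l).cont⟩
      map_add' := fun l l' => by
        ext σ : 1
        exact hGadd l l' σ
      map_smul' := fun a l => by
        ext σ : 1
        exact hGsmul a l σ }
  have hTker : LinearMap.ker T = ⊥ := by
    rw [LinearMap.ker_eq_bot']
    intro l hl
    refine hGinj l fun σ => ?_
    exact DFunLike.congr_fun hl σ
  obtain ⟨K, hK, hanti⟩ := T.exists_antilipschitzWith hTker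
  have hbound : ∀ l, (∀ σ, ‖G l σ‖ ≤ 1) → ‖l‖ ≤ K := by
    intro l hl
    have h1 := hanti.le_mul_dist l 0
    rw [map_zero, dist_zero_right, dist_zero_right] at h1
    have h2 : ‖T l‖ ≤ 1 := (ContinuousMap.norm_le _ zero_le_one).2 hl
    calc ‖l‖ ≤ K * ‖T l‖ := h1
      _ ≤ K * 1 := mul_le_mul_of_nonneg_left h2 K.2
      _ = K := mul_one _
  -- the classes
  have hzero : ∀ l b, Triv (rt b) (md fun σ => G l σ b) → ∀ σ, ‖G l σ b‖ < 1 := by
    intro l b h σ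
    rcases h with h | h
    · exact mdz.1 (h σ)
    · exfalso
      have h1 : md (fun σ => G l σ b) τ₀ = 0 := by
        rw [md_zero, hG0, Pi.zero_apply, norm_zero]
        norm_num
      have h2 := (h τ₀).1 h1
      rw [hτ₀ b] at h2
      exact ne_neg' (vd.rt0 hi b) h2.symm
  let Λ : AddSubgroup (Fin (F.card + 1) → ℚ_[2]) :=
    { carrier := {l | ∀ σ, ‖G l σ‖ ≤ 1}
      zero_mem' := fun σ => by
        have h1 := hGsmul 0 0 σ
        rw [zero_smul, zero_smul] at h1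
        rw [h1, norm_zero]
        exact zero_le_one
      add_mem' := fun {a b} ha hb σ => by
        rw [hGadd]
        exact vadd zero_le_one (ha σ) (hb σ)
      neg_mem' := fun {a} ha σ => by
        have h1 := hGsmul (-1) a σ
        rw [neg_one_smul, neg_one_smul] at h1
        rw [h1, norm_neg]
        exact ha σ }
  have hΛ : ∀ l, l ∈ Λ ↔ ∀ σ, ‖G l σ‖ ≤ 1 := fun _ => Iff.rfl
  have hlf : ∀ l ∈ Λ, ∀ b, LF hi (mm b) (rt b) (md fun σ => G l σ b) := fun l hl b =>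
    lf_of hi hq hinj hm vd hpl (hGc l) ((hΛ l).1 hl) (fun p _ ι hp => hGo l p ι hp) b
  let bx : Fin F.card → B := fun x => (F.equivFin.symm x).1
  have hbx : ∀ b ∈ F, ∃ x, bx x = b := by
    intro b hb
    refine ⟨F.equivFin ⟨b, hb⟩, ?_⟩
    show (F.equivFin.symm (F.equivFin ⟨b, hb⟩)).1 = b
    rw [Equiv.symm_apply_apply]
  have hle : ∀ l ∈ Λ, ∀ σ b, ‖G l σ b‖ ≤ 1 := fun l hl σ b =>
    (norm_le_pi_norm (G l σ) b).trans ((hΛ l).1 hl σ)
  refine hL F.card Λ ?_ ?_ ⟨K, fun v hv => hbound v ((hΛ v).1 hv)⟩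
    (fun x => {l | ∀ σ, ‖G l σ (bx x)‖ < 1}) ?_ ?_ ?_ ?_
  · intro a v hv
    rw [hΛ]
    intro σ
    rw [hGsmul, norm_smul]
    calc ‖(a : ℚ_[2])‖ * ‖G v σ‖ ≤ 1 * 1 :=
          mul_le_mul a.2 ((hΛ v).1 hv σ) (norm_nonneg _) zero_le_one
      _ = 1 := one_mul 1
  · intro v
    obtain ⟨k, hk⟩ := pow_unbounded_of_one_lt ‖T v‖ (one_lt_two (α := ℝ))
    refine ⟨k, ?_⟩
    rw [hΛ]
    intro σ
    rw [hGsmul, norm_smul, norm_pow, norm_two']
    have h1 : ‖G v σ‖ ≤ ‖T v‖ := (T v).norm_coe_le_norm σ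
    have h2 : (0 : ℝ) < 2 ^ k := by positivity
    rw [one_div, inv_pow, inv_mul_le_iff₀ h2, mul_one]
    linarith
  · intro x v hv w hw
    rcases hC i₀ hi n q hq hinj h8 hind (mm (bx x)) (hm _) (rt (bx x)) (vd.hr _) ι₁ ι₂ hι₁ hι₂
      _ _ (hlf v hv (bx x)) (hlf w hw (bx x)) with h | h | h
    · exact Or.inl (hzero v _ h)
    · exact Or.inr (Or.inl (hzero w _ h))
    · refine Or.inr (Or.inr ?_)
      have h2 : ∀ σ, md (fun σ => G v σ (bx x)) σ + md (fun σ => G w σ (bx x)) σ = 0 := by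
        rcases h with h | h
        · exact h
        · exfalso
          have h1 : md (fun σ => G v σ (bx x)) τ₀ = 0 := by
            rw [md_zero, hG0, Pi.zero_apply, norm_zero]
            norm_num
          have h1' : md (fun σ => G w σ (bx x)) τ₀ = 0 := by
            rw [md_zero, hG0, Pi.zero_apply, norm_zero]
            norm_num
          have h2 := (h τ₀).1 (by
            show md (fun σ => G v σ (bx x)) τ₀ + md (fun σ => G w σ (bx x)) τ₀ = 0
            rw [h1, h1', add_zero])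
          rw [hτ₀] at h2
          exact ne_neg' (vd.rt0 hi _) h2.symm
      intro σ
      have h3 := h2 σ
      rw [hGadd, Pi.add_apply, md_add_iff (hle v hv σ _) (hle w hw σ _)]
      have h4 : ∀ u : Fin (F.card + 1) → ℚ_[2], md (fun σ => G u σ (bx x)) σ = 0 ↔
          ‖G u σ (bx x)‖ < 1 := fun u => md_zero
      rw [← h4 v, ← h4 w]
      have h5 : ∀ a b : ZMod 2, a + b = 0 → (a = 0 ↔ b = 0) := by decide
      exact h5 _ _ h3
  · intro x v _ w _ h1 h2 σ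
    rw [hGadd, Pi.add_apply]
    exact add_lt' (h1 σ) (h2 σ)
  · intro x v _ h1 σ
    have h2 := hGsmul (-1) v σ
    rw [neg_one_smul, neg_one_smul] at h2
    rw [h2, Pi.neg_apply, norm_neg]
    exact h1 σ
  · intro v hv hM
    have hall : ∀ σ b, ‖G v σ b‖ < 1 := by
      intro σ b
      by_cases hb : b ∈ F
      · obtain ⟨x, rfl⟩ := hbx b hb
        exact hM x σ
      · refine hzero v b ?_ σ
        have hl := hlf v hv b
        obtain ⟨σ₀, h0, h2⟩ := hmove b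
        exact core hi hq hinj h8 hind (hm b) (vd.hr b) (hϖ b) (hκ b)
          ⟨hl.cont, hl.add, hl.unr, hl.ram,
            vdich hi vd ((hΛ v).1 hv) (hst b hb) (hGs v b hb) h0 h2 b (hS b hb)⟩
    rw [hΛ]
    intro σ
    have h1 : ‖G v σ‖ ≤ 1 / 2 := by
      rw [pi_norm_le_iff_of_nonneg (by norm_num)]
      intro b
      exact norm_lt_one (hall σ b)
    rw [hGsmul, norm_smul, norm_div, norm_one, norm_two']
    linarith

end Pool.Agent.K3h12.DM
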